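import Pool.Agent.P.MP_0a88e3_nt.Link

set_option autoImplicit false

open Finset

namespace Pool.Agent.P.MP_0a88e3_nt

/-- The sieve weight. -/
noncomputable def ka (Q : ℕ) : ℝ := (Q : ℝ) / Q.totient

noncomputable def ch (Q m : ℕ) : ℝ := if m.Coprime Q then ka Q else 0

theorem ka_nonneg (Q : ℕ) : 0 ≤ ka Q := by unfold ka; positivity

theorem one_le_ka {Q : ℕ} (hQ : 0 < Q) : 1 ≤ ka Q := by
  have : (0 : ℝ) < Q.totient := by exact_mod_cast Nat.totient_pos.2 hQ
  rw [ka, le_div_iff₀ this, one_mul]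
  exact_mod_cast Nat.totient_le Q

theorem ka_le {Q : ℕ} (hQ : 0 < Q) : ka Q ≤ Q := by
  have : (1 : ℝ) ≤ Q.totient := by exact_mod_cast Nat.totient_pos.2 hQ
  exact div_le_self Q.cast_nonneg this

theorem ch_nonneg (Q m : ℕ) : 0 ≤ ch Q m := by
  unfold ch; split_ifs; exacts [ka_nonneg Q, le_rfl]

theorem ch_le (Q m : ℕ) : ch Q m ≤ ka Q := by
  unfold ch; split_ifs; exacts [le_rfl, ka_nonneg Q]

theorem ch_match {Q i j : ℕ} (h : Q ∣ i + j) : ch Q i = ch Q j := by
  have k : ∀ a b : ℕ, Q ∣ a + b → a.Coprime Q → b.Coprime Q := fun a b h1 h2 => by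
    refine Nat.eq_one_of_dvd_coprimes h2 ?_ (Nat.gcd_dvd_right b Q)
    exact (Nat.dvd_add_left (Nat.gcd_dvd_left b Q)).1 ((Nat.gcd_dvd_right b Q).trans h1)
  unfold ch
  exact if_congr ⟨k i j h, k j i (by rwa [add_comm])⟩ rfl rfl

theorem sum_ch_per {Q : ℕ} (hQ : 0 < Q) (n : ℕ) : ∑ k ∈ range Q, ch Q (n + k) = Q := by
  have h0 : (Q.totient : ℝ) ≠ 0 := by exact_mod_cast (Nat.totient_pos.2 hQ).ne'
  have h1 := Nat.filter_coprime_Ico_eq_totient Q n
  have h2 : ∑ k ∈ range Q, ch Q (n + k) = ∑ k ∈ Ico n (n + Q), ch Q k := by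
    rw [sum_Ico_eq_sum_range, Nat.add_sub_cancel_left]
  rw [h2]
  simp only [ch]
  simp only [Nat.coprime_comm (n := Q)] at h1
  rw [← sum_filter, sum_const, h1, nsmul_eq_mul, ka]
  field_simp

theorem sum_ch {Q : ℕ} (hQ : 0 < Q) (y n : ℕ) :
    (y : ℝ) - Q ≤ ∑ k ∈ range y, ch Q (n + k) ∧ ∑ k ∈ range y, ch Q (n + k) ≤ y + Q := by
  induction y using Nat.strong_induction_on generalizing n with
  | _ y ih =>
    by_cases h : y < Q
    · have h1 : (y : ℝ) ≤ Q := by exact_mod_cast h.le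
      have h2 : 0 ≤ ∑ k ∈ range y, ch Q (n + k) := sum_nonneg fun k _ => ch_nonneg _ _
      have h3 : ∑ k ∈ range y, ch Q (n + k) ≤ ∑ k ∈ range Q, ch Q (n + k) :=
        sum_le_sum_of_subset_of_nonneg (range_subset_range.2 h.le) fun k _ _ => ch_nonneg _ _
      rw [sum_ch_per hQ] at h3
      have : (0 : ℝ) ≤ y := y.cast_nonneg
      constructor <;> linarith
    · obtain ⟨z, rfl⟩ : ∃ z, y = Q + z := ⟨y - Q, by omega⟩
      have := ih z (by omega) (n + Q)
      rw [sum_range_add, sum_ch_per hQ]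
      simp only [← add_assoc]
      push_cast
      constructor <;> linarith [this.1, this.2]

open Classical in
noncomputable def io (p : Prop) : ℝ := if p then 1 else 0

theorem io_nonneg (p : Prop) : 0 ≤ io p := by unfold io; split_ifs <;> norm_num

theorem io_le (p : Prop) : io p ≤ 1 := by unfold io; split_ifs <;> norm_num

theorem io_of {p : Prop} (h : p) : io p = 1 := if_pos h

theorem io_not {p : Prop} (h : ¬ p) : io p = 0 := if_neg h

theorem Gap_dep (m G : ℕ) : DependsOn (Gap m G) (Set.Ioc m (m + G)) := by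
  intro x y e
  exact forall_congr fun j => propext (imp_congr_right fun h1 => imp_congr_right fun h2 => by
    rw [e j ⟨h1, h2⟩])

theorem log_sub_le {i j : ℝ} (hi : 0 < i) (hj : 0 < j) : Real.log j - Real.log i ≤ (j - i) / i := by
  rw [← Real.log_div hj.ne' hi.ne', sub_div, div_self hi.ne']
  exact Real.log_le_sub_one_of_pos (by positivity)

variable {Ω : Type*} [MeasurableSpace Ω] (M : Md Ω)

namespace Md

/-- Probability of a gap. -/
noncomputable def gp (m G : ℕ) : ℝ := ∏ k ∈ range G, (1 - M.a (m + 1 + k))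

theorem E_gap (m G : ℕ) : M.E (fun x => io (Gap m G x)) = M.gp m G := by
  induction G with
  | zero =>
    rw [gp, prod_range_zero, ← M.E_const 1]
    congr 1; funext x
    exact io_of fun j a b => by omega
  | succ G ih =>
    have := M.E_cond (F := fun x b => io (Gap m G x) * if b then 0 else 1)
      (Set.finite_Ioc m (m + G))
      (fun b x y e => by simp only [Gap_dep m G e]) (m := m + 1 + G) (by simp)
    have e1 : (fun x => io (Gap m (G + 1) x)) =
        fun x => io (Gap m G x) * if x (m + 1 + G) then 0 else 1 := by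
      funext x
      by_cases h : Gap m (G + 1) x
      · rw [io_of h, io_of (p := Gap m G x) fun j a b => h j a (by omega),
          h _ (by omega) (by omega)]
        simp
      · rw [io_not h]
        by_cases h1 : Gap m G x
        · cases h2 : x (m + 1 + G)
          · refine absurd (fun j a b => ?_) h
            by_cases h3 : j ≤ m + G
            exacts [h1 j a h3, by rwa [show j = m + 1 + G by omega]]
          · simp
        · simp [io_not h1]
    rw [e1, this, gp, prod_range_succ, ← gp, ← ih, mul_comm, ← M.E_cmul]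
    simp

/-- The model from `m0` on. -/
structure Good (Q m0 : ℕ) : Prop where
  pos : 0 < Q
  m3 : 3 ≤ m0
  lg : 2 * ka Q ≤ Real.log m0
  eq : ∀ m, m0 ≤ m → M.a m = ch Q m / Real.log m

variable {M} {Q m0 : ℕ} (g : M.Good Q m0)
include g

theorem Good.lg_le {m : ℕ} (h : m0 ≤ m) : 2 * ka Q ≤ Real.log m := by
  have : (3 : ℝ) ≤ m0 := by exact_mod_cast g.m3
  exact g.lg.trans (Real.log_le_log (by linarith) (by exact_mod_cast h))

theorem Good.two_le {m : ℕ} (h : m0 ≤ m) : 2 ≤ Real.log m := by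
  linarith [g.lg_le h, one_le_ka g.pos]

theorem Good.cpos {m : ℕ} (h : m0 ≤ m) : (0 : ℝ) < m := by
  have := g.m3
  exact_mod_cast (by omega : 0 < m)

theorem Good.half {m : ℕ} (h : m0 ≤ m) : M.a m ≤ 1 / 2 := by
  rw [g.eq m h, div_le_iff₀ (by linarith [g.two_le h])]
  linarith [g.lg_le h, ch_le Q m]

theorem Good.ge {m : ℕ} (h : m0 ≤ m) {B : ℝ} (hB : m ≤ B) : ch Q m / Real.log B ≤ M.a m := by
  rw [g.eq m h]
  exact div_le_div_of_nonneg_left (ch_nonneg _ _) (by linarith [g.two_le h])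
    (Real.log_le_log (g.cpos h) hB)

theorem Good.anti {i j : ℕ} (h : m0 ≤ i) (hj : i ≤ j) (hd : Q ∣ i + j) : M.a j ≤ M.a i := by
  rw [g.eq j (h.trans hj), ← ch_match hd]
  exact g.ge h (by exact_mod_cast hj)

theorem Good.gp_le {m : ℕ} (h : m0 ≤ m) (G : ℕ) {B : ℝ} (hB : m + G ≤ B) :
    M.gp m G ≤ Real.exp (-((G - Q) / Real.log B)) := by
  have l0 : 0 ≤ Real.log B :=
    le_trans (by linarith [g.two_le h]) (Real.log_le_log (g.cpos h) (le_trans (by simp) hB))
  refine le_trans (prod_le_prod (g := fun k => Real.exp (-(ch Q (m + 1 + k) / Real.log B)))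
    (fun k _ => sub_nonneg.2 (M.a_le _)) fun k hk => ?_) ?_
  · have h1 := g.ge (m := m + 1 + k) (by omega) (B := B) (le_trans (by
      exact_mod_cast (by have := mem_range.1 hk; omega : m + 1 + k ≤ m + G)) hB)
    linarith [Real.add_one_le_exp (-(ch Q (m + 1 + k) / Real.log B))]
  · rw [← Real.exp_sum, sum_neg_distrib, ← sum_div]
    exact Real.exp_le_exp.2 (neg_le_neg (div_le_div_of_nonneg_right (sum_ch g.pos _ _).1 l0))

theorem Good.gp_ge {m : ℕ} (h : m0 ≤ m) (G : ℕ) :
    Real.exp (-((G + Q) / (Real.log m - ka Q))) ≤ M.gp m G := by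
  have k1 := one_le_ka g.pos
  have l0 : 0 < Real.log m - ka Q := by linarith [g.lg_le h]
  refine le_trans ?_ (prod_le_prod
    (f := fun k => Real.exp (-(ch Q (m + 1 + k) / (Real.log m - ka Q))))
    (fun k _ => (Real.exp_pos _).le) fun k _ => ?_)
  · rw [← Real.exp_sum, sum_neg_distrib, ← sum_div]
    exact Real.exp_le_exp.2 (neg_le_neg (div_le_div_of_nonneg_right (sum_ch g.pos _ _).2 l0.le))
  · have c0 := ch_nonneg Q (m + 1 + k)
    have c1 := ch_le Q (m + 1 + k)
    have l1 : Real.log m ≤ Real.log (m + 1 + k : ℕ) :=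
      Real.log_le_log (g.cpos h) (by exact_mod_cast (by omega : m ≤ m + 1 + k))
    rw [g.eq _ (by omega)]
    set c := ch Q (m + 1 + k)
    set L := Real.log m - ka Q
    have a1 : c / Real.log (m + 1 + k : ℕ) ≤ c / (L + c) :=
      div_le_div_of_nonneg_left c0 (by linarith) (by simp only [L]; linarith)
    have a2 : Real.exp (-(c / L)) ≤ 1 / (c / L + 1) := by
      rw [Real.exp_neg, one_div]
      exact inv_anti₀ (by positivity) (Real.add_one_le_exp _)
    have a3 : 1 / (c / L + 1) = 1 - c / (L + c) := by field_simp; ring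
    linarith

theorem Good.persU {l r y H : ℕ} {h : ℤ} (h0 : 0 ≤ h) (hH : 1 ≤ H) (h1 : m0 + y ≤ l)
    (h2 : Q ∣ l + r) (h3 : l ≤ r) (h4 : r ≤ l + y) (h5 : 24 * y * H ≤ l)
    (h6 : 2 * (H : ℝ) ^ 2 * Real.log (2 * l) + Q ≤ y) : M.π l r h y ≤ 2 * (h + 1) / H := by
  have h7 : 24 * y ≤ l := le_trans (Nat.le_mul_of_pos_right _ hH) h5
  have hr : ∀ k < y, M.a (r + 1 + k) / 2 ≤ M.rr l r k := fun k hk => by
    have := mul_le_mul_of_nonneg_left (g.half (m := l - 1 - k) (by omega)) (M.a_nonneg (r + 1 + k))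
    unfold rr; linarith
  refine M.pers_le h0 hH (by omega) h3 (fun k hk => le_trans ?_ (hr k hk)) ?_
  · have e : M.pp l r k - M.rr l r k = M.a (l - 1 - k) - M.a (r + 1 + k) := by unfold pp rr; ring
    have i0 : m0 ≤ l - 1 - k := by omega
    have j0 : m0 ≤ r + 1 + k := by omega
    have b1 := log_sub_le (g.cpos i0) (g.cpos j0)
    have b2 : (((r + 1 + k : ℕ) : ℝ) - (l - 1 - k : ℕ)) / (l - 1 - k : ℕ) * (4 * H) ≤ 1 := by
      rw [div_mul_eq_mul_div, div_le_one (g.cpos i0)]
      have c1 : r + 1 + k ≤ l - 1 - k + 3 * y := by omega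
      have c2 : 12 * (y * H) ≤ l - 1 - k := by rw [mul_assoc] at h5; omega
      have c3 : ((r + 1 + k : ℕ) : ℝ) ≤ (l - 1 - k : ℕ) + 3 * y := by exact_mod_cast c1
      have c4 : 12 * ((y : ℝ) * H) ≤ (l - 1 - k : ℕ) := by exact_mod_cast c2
      have : (0 : ℝ) ≤ H := H.cast_nonneg
      nlinarith
    rw [e, g.eq _ i0, g.eq _ j0, ch_match (Q := Q) (i := l - 1 - k) (j := r + 1 + k)
      (by rwa [show l - 1 - k + (r + 1 + k) = l + r by omega])]
    have c0 := ch_nonneg Q (r + 1 + k)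
    have u2 := g.two_le i0
    have v2 := g.two_le j0
    set c := ch Q (r + 1 + k)
    set u := Real.log (l - 1 - k : ℕ)
    set v := Real.log (r + 1 + k : ℕ)
    have H0 : (0 : ℝ) ≤ H := H.cast_nonneg
    have b3 : (v - u) * (4 * H) ≤ u := by nlinarith
    have e2 : (c / u - c / v) * (2 * H) = c / v / 2 * ((v - u) * (4 * H) / u) := by
      field_simp; ring
    rw [e2]
    exact mul_le_of_le_one_right (by positivity) ((div_le_one (by linarith)).2 b3)
  · have l0 : 0 < Real.log (2 * l) := by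
      have := g.cpos (m := l) (by omega)
      linarith [g.two_le (m := l) (by omega), Real.log_le_log this (show (l : ℝ) ≤ 2 * l by linarith)]
    refine le_trans ?_ (sum_le_sum (f := fun k => ch Q (r + 1 + k) / Real.log (2 * l) / 2)
      fun k hk => le_trans ?_ (hr k (mem_range.1 hk)))
    · rw [← sum_div, ← sum_div, le_div_iff₀ two_pos, le_div_iff₀ l0]
      linarith [(sum_ch g.pos y (r + 1)).1]
    · have := mem_range.1 hk
      exact div_le_div_of_nonneg_right (g.ge (by omega)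
        (by exact_mod_cast (by omega : r + 1 + k ≤ 2 * l))) two_pos.le

theorem Good.persL {l r y H : ℕ} (hH : 1 ≤ H) (h1 : m0 + y ≤ l) (h2 : Q ∣ l + r) (h3 : l ≤ r)
    (h4 : 6 * y ≤ H ^ 2) : 1 / (2 * (H : ℝ)) ≤ M.π l r 0 y := by
  refine M.pers_ge hH (by omega) h3 (fun k hk => ?_) h4
  have := g.anti (i := l - 1 - k) (j := r + 1 + k) (by omega) (by omega)
    (by rwa [show l - 1 - k + (r + 1 + k) = l + r by omega])
  unfold pp rr; linarith

end Md

end Pool.Agent.P.MP_0a88e3_nt
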