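import Pool.Agent.P.MP_0a88e3_nt.Sec

set_option autoImplicit false

open Finset

namespace Pool.Agent.P.MP_0a88e3_nt

variable {Ω : Type*} [MeasurableSpace Ω] (M : Md Ω)

namespace Md

theorem core (G : ℕ → ℕ) (S : Finset ℕ) {y z Y N : ℕ} {b c q p θ δ : ℝ} (h1 : y ≤ z) (h2 : z ≤ Y)
    (h : ∀ m ∈ S, Y ≤ m) (hG : ∀ m ∈ S, G m ≤ y) (q0 : 0 < q)
    (hq : ∀ m ∈ S, q ≤ M.a m * M.gp m (G m)) (hb : ∀ m ∈ S, M.π m (m + G m) 0 y ≤ b)
    (hc : ∀ m ∈ S, M.π m (m + G m) 0 z ≤ c) (S0 : 0 < #S) (p0 : 0 < p)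
    (hp : ∀ m ∈ S, p ≤ M.π m (m + G m) 0 Y) (t0 : 0 < θ) (d0 : 0 ≤ δ) (hN : ∀ m ∈ S, m ≤ N)
    (hδ : ∀ m ∈ S, ∀ w, Y ≤ w → w ≤ m → M.E (fun x => Real.exp (-θ * W m (m + G m) w x)) ≤ δ) :
    ∃ f : Cfg → ℝ, Loc f ∧ (∀ x, 0 ≤ f x) ∧
      M.E f ≤ 4 * ((q * (#S * p))⁻¹ +
        (6 * y + 1 + b ^ 2 * (6 * z + 1) + c ^ 2 * (6 * Y + 1)) / (#S * p ^ 2)) +
        #S * ((N + 1) * δ) ∧
      ∀ x, f x < 1 → q * (#S * p) / 2 ≤ ∑ m ∈ S, io (Ev m (G m) 0 m x) := by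
  have v := M.var_le G S h1 h2 h hG q0 hq hb hc
  set μ := ∑ m ∈ S, M.E (M.Z G Y m) with hμ
  set B := 6 * (y : ℝ) + 1 + b ^ 2 * (6 * z + 1) + c ^ 2 * (6 * Y + 1) with hB
  have B0 : 0 ≤ B := by positivity
  have s0 : (0 : ℝ) < #S := by exact_mod_cast S0
  have m1 : #S * p ≤ μ := by
    rw [← nsmul_eq_mul]
    exact card_nsmul_le_sum _ _ _ fun m hm => by
      rw [M.E_Z G (h m hm) (q0.trans_le (hq m hm))]; exact hp m hm
  have m0 : 0 < μ := (mul_pos s0 p0).trans_le m1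
  have l1 : Loc fun x => (∑ m ∈ S, M.Z G Y m x - μ) ^ 2 :=
    (Loc.sum S fun m hm => M.Z_loc G (h m hm)).comp fun t => (t - μ) ^ 2
  have l2 : ∀ m ∈ S, ∀ w ∈ Icc Y m, Loc fun x => Real.exp (-θ * W m (m + G m) w x) :=
    fun m _ w hw => Loc.comp (f := W m (m + G m) w) ⟨_, St_fin _ _ _, W_dep (mem_Icc.1 hw).2 le_rfl⟩
      fun t => Real.exp (-θ * t)
  have l3 := fun m hm => Loc.sum (Icc Y m) (l2 m hm)
  have n2 : ∀ x, ∀ m ∈ S, 0 ≤ ∑ w ∈ Icc Y m, Real.exp (-θ * W m (m + G m) w x) :=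
    fun x m _ => sum_nonneg fun w _ => (Real.exp_pos _).le
  refine ⟨fun x => 4 / μ ^ 2 * (∑ m ∈ S, M.Z G Y m x - μ) ^ 2 +
    ∑ m ∈ S, ∑ w ∈ Icc Y m, Real.exp (-θ * W m (m + G m) w x), (l1.cmul _).add (Loc.sum S l3),
    fun x => add_nonneg (by positivity) (sum_nonneg (n2 x)), ?_, fun x hx => ?_⟩
  · rw [M.E_add (l1.cmul _) (Loc.sum S l3), M.E_cmul, M.E_sum S l3]
    refine add_le_add ?_ ?_
    · refine (mul_le_mul_of_nonneg_left v (by positivity)).trans ?_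
      have a1 : (q * μ)⁻¹ ≤ (q * (#S * p))⁻¹ :=
        inv_anti₀ (by positivity) (mul_le_mul_of_nonneg_left m1 q0.le)
      have a2 : #S * B / μ ^ 2 ≤ #S * B / (#S * p) ^ 2 :=
        div_le_div_of_nonneg_left (by positivity) (by positivity)
          (pow_le_pow_left₀ (by positivity) m1 2)
      have a3 : #S * B / (#S * p) ^ 2 = B / (#S * p ^ 2) := by field_simp
      have a4 : 4 / μ ^ 2 * (q⁻¹ * μ + #S * B) = 4 * ((q * μ)⁻¹ + #S * B / μ ^ 2) := by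
        field_simp
      linarith
    · rw [← nsmul_eq_mul]
      refine sum_le_card_nsmul _ _ _ fun m hm => ?_
      rw [M.E_sum _ (l2 m hm)]
      refine (sum_le_card_nsmul _ _ δ fun w hw =>
        hδ m hm w (mem_Icc.1 hw).1 (mem_Icc.1 hw).2).trans ?_
      rw [nsmul_eq_mul, Nat.card_Icc]
      have := hN m hm
      exact mul_le_mul_of_nonneg_right (by exact_mod_cast (by omega : m + 1 - Y ≤ N + 1)) d0
  · have a0 : 0 ≤ 4 / μ ^ 2 * (∑ m ∈ S, M.Z G Y m x - μ) ^ 2 := by positivity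
    have a1 : μ / 2 ≤ ∑ m ∈ S, M.Z G Y m x := by
      have b1 : 4 / μ ^ 2 * (∑ m ∈ S, M.Z G Y m x - μ) ^ 2 < 1 := by
        linarith [sum_nonneg (n2 x)]
      rw [div_mul_eq_mul_div, div_lt_one (by positivity)] at b1
      nlinarith
    have a2 : ∀ m ∈ S, Ev m (G m) 0 Y x → Ev m (G m) 0 m x := fun m hm H => by
      refine ⟨H.1, H.2.1, fun w hw => ?_⟩
      by_cases hY : w ≤ Y
      · exact H.2.2 w hY
      have b1 := single_le_sum (n2 x) hm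
      have b2 := single_le_sum (f := fun w => Real.exp (-θ * W m (m + G m) w x))
        (fun w _ => (Real.exp_pos _).le) (mem_Icc.2 ⟨(by omega : Y ≤ w), hw⟩)
      have b3 : Real.exp (-θ * W m (m + G m) w x) < 1 := by linarith
      rw [Real.exp_lt_one_iff] at b3
      have b4 : (0 : ℝ) ≤ W m (m + G m) w x := by nlinarith
      have b5 : 0 ≤ W m (m + G m) w x := by exact_mod_cast b4
      simpa using b5
    have a3 : q * ∑ m ∈ S, M.Z G Y m x ≤ ∑ m ∈ S, io (Ev m (G m) 0 m x) := by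
      rw [mul_sum]
      refine sum_le_sum fun m hm => le_trans ?_ (io_mono (a2 m hm))
      rw [Z, ← mul_assoc]
      refine mul_le_of_le_one_left (io_nonneg _) ?_
      rw [← div_eq_mul_inv, div_le_one (q0.trans_le (hq m hm))]
      exact hq m hm
    nlinarith

end Md

end Pool.Agent.P.MP_0a88e3_nt
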