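import Mathlib

set_option autoImplicit false

open MeasureTheory ProbabilityTheory Filter

namespace Pool.Agent.P.MP_0a88e3_nt

/-- Configurations of independent bits. -/
abbrev Cfg := ℕ → Bool

/-- A function of finitely many bits. -/
def Loc {β : Type} (f : Cfg → β) : Prop := ∃ s : Set ℕ, s.Finite ∧ DependsOn f s

theorem Loc.const {β : Type} (b : β) : Loc fun _ : Cfg => b :=
  ⟨∅, Set.finite_empty, dependsOn_const b⟩

theorem Loc.comp {β γ : Type} {f : Cfg → β} (hf : Loc f) (φ : β → γ) : Loc fun x => φ (f x) := by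
  obtain ⟨s, hs, h⟩ := hf
  exact ⟨s, hs, fun x y e => by simp only [h e]⟩

theorem dep2 {β γ δ : Type} {f : Cfg → β} {g : Cfg → γ} {s : Set ℕ} (hf : DependsOn f s)
    (hg : DependsOn g s) (φ : β → γ → δ) : DependsOn (fun x => φ (f x) (g x)) s :=
  fun x y e => by simp only [hf e, hg e]

theorem Loc.comp2 {β γ δ : Type} {f : Cfg → β} {g : Cfg → γ} (hf : Loc f) (hg : Loc g)
    (φ : β → γ → δ) : Loc fun x => φ (f x) (g x) := by
  obtain ⟨s, hs, h⟩ := hf
  obtain ⟨t, ht, k⟩ := hg
  exact ⟨s ∪ t, hs.union ht,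
    dep2 (h.mono Set.subset_union_left) (k.mono Set.subset_union_right) φ⟩

theorem Loc.add {f g : Cfg → ℝ} (hf : Loc f) (hg : Loc g) : Loc fun x => f x + g x :=
  hf.comp2 hg (· + ·)

theorem Loc.mul {f g : Cfg → ℝ} (hf : Loc f) (hg : Loc g) : Loc fun x => f x * g x :=
  hf.comp2 hg (· * ·)

theorem Loc.cmul {f : Cfg → ℝ} (hf : Loc f) (c : ℝ) : Loc fun x => c * f x := hf.comp (c * ·)

theorem Loc.sum {ι : Type} (S : Finset ι) {f : ι → Cfg → ℝ} (hf : ∀ i ∈ S, Loc (f i)) :
    Loc fun x => ∑ i ∈ S, f i x := by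
  classical
  induction S using Finset.induction_on with
  | empty => simpa using Loc.const (0 : ℝ)
  | insert i S hi ih =>
    simp only [Finset.sum_insert hi]
    exact (hf i (by simp)).add (ih fun j hj => hf j (by simp [hj]))

/-- Independent bits with probabilities `a`. -/
structure Md (Ω : Type*) [MeasurableSpace Ω] where
  μ : Measure Ω
  prob : IsProbabilityMeasure μ
  X : ℕ → Ω → Bool
  a : ℕ → ℝ
  meas : ∀ m, Measurable (X m)
  ind : iIndepFun X μ
  pr : ∀ m, μ.real {ω | X m ω = true} = a m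

variable {Ω : Type*} [MeasurableSpace Ω] (M : Md Ω)

instance : IsProbabilityMeasure M.μ := M.prob

namespace Md

def cfg (ω : Ω) : Cfg := fun m => M.X m ω

noncomputable def E (f : Cfg → ℝ) : ℝ := ∫ ω, f (M.cfg ω) ∂M.μ

theorem a_nonneg (m : ℕ) : 0 ≤ M.a m := by rw [← M.pr]; exact measureReal_nonneg

theorem a_le (m : ℕ) : M.a m ≤ 1 := by rw [← M.pr]; exact measureReal_le_one

theorem fac {f : Cfg → ℝ} {s : Set ℕ} (hs : s.Finite) (hf : DependsOn f s) :
    ∃ g : (hs.toFinset → Bool) → ℝ, ∀ x, f x = g fun i => x i := by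
  classical
  refine ⟨fun z => f fun i => if h : i ∈ hs.toFinset then z ⟨i, h⟩ else false, fun x => ?_⟩
  refine hf fun i hi => ?_
  simp [hi]

theorem mres (S : Finset ℕ) : Measurable fun (ω : Ω) (i : S) => M.X i ω :=
  measurable_pi_lambda _ fun i => M.meas i

theorem intg {f : Cfg → ℝ} (hf : Loc f) : Integrable (fun ω => f (M.cfg ω)) M.μ := by
  obtain ⟨s, hs, h⟩ := hf
  obtain ⟨g, hg⟩ := fac hs h
  simp only [hg]
  obtain ⟨C, hC⟩ := (Set.finite_range fun z => ‖g z‖).bddAbove
  exact Integrable.of_bound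
    (((measurable_of_finite g).comp (M.mres hs.toFinset)).aestronglyMeasurable) C
    (Eventually.of_forall fun ω => hC ⟨_, rfl⟩)

theorem E_mul {f g : Cfg → ℝ} {s t : Set ℕ} (hs : s.Finite) (ht : t.Finite)
    (hf : DependsOn f s) (hg : DependsOn g t) (hd : Disjoint s t) :
    M.E (fun x => f x * g x) = M.E f * M.E g := by
  obtain ⟨f', hf'⟩ := fac hs hf
  obtain ⟨g', hg'⟩ := fac ht hg
  simp only [E, hf', hg']
  exact (M.ind.indepFun_finset hs.toFinset ht.toFinset (by simpa using hd)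
    M.meas).integral_fun_comp_mul_comp (M.mres _).aemeasurable (M.mres _).aemeasurable
    (measurable_of_finite f').aestronglyMeasurable (measurable_of_finite g').aestronglyMeasurable

theorem E_mono {f g : Cfg → ℝ} (hf : Loc f) (hg : Loc g) (h : ∀ x, f x ≤ g x) : M.E f ≤ M.E g :=
  integral_mono (M.intg hf) (M.intg hg) fun _ => h _

theorem E_nonneg {f : Cfg → ℝ} (h : ∀ x, 0 ≤ f x) : 0 ≤ M.E f := integral_nonneg fun _ => h _

theorem E_add {f g : Cfg → ℝ} (hf : Loc f) (hg : Loc g) :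
    M.E (fun x => f x + g x) = M.E f + M.E g := integral_add (M.intg hf) (M.intg hg)

theorem E_cmul (c : ℝ) (f : Cfg → ℝ) : M.E (fun x => c * f x) = c * M.E f :=
  integral_const_mul _ _

theorem E_const (c : ℝ) : M.E (fun _ => c) = c := by simp [E]

theorem E_sum {ι : Type} (S : Finset ι) {f : ι → Cfg → ℝ} (hf : ∀ i ∈ S, Loc (f i)) :
    M.E (fun x => ∑ i ∈ S, f i x) = ∑ i ∈ S, M.E (f i) :=
  integral_finsetSum _ fun i hi => M.intg (hf i hi)

theorem E_bit (m : ℕ) : M.E (fun x => if x m then 1 else 0) = M.a m := by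
  have hm : MeasurableSet {ω | M.X m ω = true} := (M.meas m) (measurableSet_singleton true)
  rw [← M.pr, ← integral_indicator_one hm]
  refine integral_congr_ae (Eventually.of_forall fun ω => ?_)
  by_cases h : M.X m ω = true <;> simp [cfg, h, Set.indicator]

/-- Conditioning on one fresh bit. -/
theorem E_cond {F : Cfg → Bool → ℝ} {s : Set ℕ} (hs : s.Finite)
    (hF : ∀ b, DependsOn (fun x => F x b) s) {m : ℕ} (hm : m ∉ s) :
    M.E (fun x => F x (x m)) = M.E fun x => M.a m * F x true + (1 - M.a m) * F x false := by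
  have l : ∀ b, Loc fun x => F x b := fun b => ⟨s, hs, hF b⟩
  have d : DependsOn (fun x : Cfg => if x m then (1 : ℝ) else 0) {m} :=
    fun x y e => by simp only [e m rfl]
  have lb : Loc fun x : Cfg => if x m then (1 : ℝ) else 0 := ⟨_, Set.finite_singleton m, d⟩
  have e1 : (fun x => F x (x m)) = fun x => F x false +
      (F x true - F x false) * if x m then 1 else 0 := by
    funext x; cases x m <;> simp
  have e2 : (fun x => M.a m * F x true + (1 - M.a m) * F x false) = fun x => F x false +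
      M.a m * (F x true - F x false) := by
    funext x; ring
  have ls : Loc fun x => F x true - F x false := (l true).comp2 (l false) (· - ·)
  rw [e1, e2, M.E_add (l false) (ls.mul lb), M.E_add (l false) (ls.cmul _), M.E_cmul,
    M.E_mul hs (Set.finite_singleton m) (dep2 (hF true) (hF false) (· - ·)) d (by simpa using hm),
    M.E_bit, mul_comm]

theorem ae_summable {f : ℕ → Cfg → ℝ} (hf : ∀ n, Loc (f n)) (h0 : ∀ n x, 0 ≤ f n x)
    (hs : Summable fun n => M.E (f n)) : ∀ᵐ ω ∂M.μ, Summable fun n => f n (M.cfg ω) := by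
  have hm : ∀ n, AEMeasurable (fun ω => ENNReal.ofReal (f n (M.cfg ω))) M.μ := fun n =>
    (M.intg (hf n)).aemeasurable.ennreal_ofReal
  have h1 : ∫⁻ ω, ∑' n, ENNReal.ofReal (f n (M.cfg ω)) ∂M.μ ≠ ⊤ := by
    rw [lintegral_tsum hm]
    have : ∀ n, ∫⁻ ω, ENNReal.ofReal (f n (M.cfg ω)) ∂M.μ = ENNReal.ofReal (M.E (f n)) := fun n =>
      (ofReal_integral_eq_lintegral_ofReal (M.intg (hf n))
        (Eventually.of_forall fun ω => h0 n _)).symm
    simp only [this]
    rw [← ENNReal.ofReal_tsum_of_nonneg (fun n => M.E_nonneg (h0 n)) hs]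
    exact ENNReal.ofReal_ne_top
  filter_upwards [ae_lt_top' (AEMeasurable.tsum hm) h1] with ω hω
  have := ENNReal.summable_toReal hω.ne
  simpa [ENNReal.toReal_ofReal (h0 _ _)] using this

end Md

end Pool.Agent.P.MP_0a88e3_nt
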