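import Pool.Agent.P.MP_0a88e3_nt.Cnt

set_option autoImplicit false

open Finset

namespace Pool.Agent.P.MP_0a88e3_nt

variable {Ω : Type*} [MeasurableSpace Ω] {M : Md Ω} {Q m0 : ℕ}

namespace Md

theorem Good.drift (g : M.Good Q m0) {i j : ℕ} (h : m0 ≤ i) (hj : i ≤ j) (hd : Q ∣ i + j) {B : ℝ}
    (hB : j ≤ B) : M.a i * (((j : ℝ) - i) / (B * Real.log B)) ≤ M.a i - M.a j := by
  have j0 := h.trans hj
  have b1 := log_sub_le (g.cpos j0) (g.cpos h)
  have u2 := g.two_le h
  have v2 := g.two_le j0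
  have p := g.cpos j0
  have v3 := Real.log_le_log p hB
  have ij : (i : ℝ) ≤ j := by exact_mod_cast hj
  have b2 : ((j : ℝ) - i) / (B * Real.log B) ≤ (Real.log j - Real.log i) / Real.log j := by
    refine le_trans (div_le_div_of_nonneg_left (c := j * Real.log j) (by linarith) (by positivity)
      (mul_le_mul hB v3 (by linarith) (by linarith))) ?_
    rw [← div_div]
    refine div_le_div_of_nonneg_right ?_ (by linarith)
    rw [← neg_sub (j : ℝ), neg_div] at b1
    linarith
  refine (mul_le_mul_of_nonneg_left b2 (M.a_nonneg i)).trans (le_of_eq ?_)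
  rw [g.eq i h, g.eq j j0, ch_match hd]
  field_simp

theorem Good.far (g : M.Good Q m0) {l r y Y e : ℕ} {B θ : ℝ} (h1 : m0 + (Y + e) ≤ l)
    (h2 : Q ∣ l + r) (h3 : l ≤ r) (h4 : Y + e ≤ y) (h5 : y ≤ l) (hB : r + y ≤ B) (t0 : 0 ≤ θ)
    (t1 : θ ≤ 1) (hθ : θ * (2 * B * Real.log B) ≤ Y) :
    M.E (fun x => Real.exp (-θ * W l r y x)) ≤
      Real.exp (3 * m0 + 2 * θ ^ 2 * (Y - (e - Q) / Real.log B)) := by
  refine (M.chern h5 h3 t0 t1).trans (Real.exp_le_exp.2 ?_)
  set f : ℕ → ℝ := fun k => -θ * (M.a (l - 1 - k) - M.a (r + 1 + k)) +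
    θ ^ 2 * (M.a (l - 1 - k) + M.a (r + 1 + k)) with hf
  have t2 := sq_nonneg θ
  have dv : ∀ k < y, Q ∣ l - 1 - k + (r + 1 + k) := fun k hk => by
    rwa [show l - 1 - k + (r + 1 + k) = l + r by omega]
  have hb : ∀ k < y, ((r + 1 + k : ℕ) : ℝ) ≤ B := fun k hk =>
    le_trans (by exact_mod_cast (by omega : r + 1 + k ≤ r + y)) hB
  have r0 : (r : ℝ) ≤ B := le_trans (by simp) hB
  have rp := g.cpos (m := r) (by omega)
  have l2 : 2 ≤ Real.log B := (g.two_le (m := r) (by omega)).trans (Real.log_le_log rp r0)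
  have B0 : 0 < B * Real.log B := mul_pos (by linarith) (by linarith)
  have f1 : ∀ k < y, m0 ≤ l - 1 - k → f k ≤ 2 * θ ^ 2 := fun k hk h => by
    have a1 := g.anti h (by omega) (dv k hk)
    have a2 := mul_le_mul_of_nonneg_left a1 t0
    have a3 := mul_le_mul_of_nonneg_left (M.a_le (l - 1 - k)) t2
    have a4 := mul_le_mul_of_nonneg_left (M.a_le (r + 1 + k)) t2
    simp only [hf]; linarith
  have f2 : ∀ k < y, m0 ≤ l - 1 - k → Y ≤ k → f k ≤ -(2 * θ ^ 2 * M.a (l - 1 - k)) := by
    intro k hk h hY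
    have a1 := g.anti h (by omega) (dv k hk)
    have a2 := g.drift h (by omega) (dv k hk) (hb k hk)
    have a3 : 4 * θ ≤ (((r + 1 + k : ℕ) : ℝ) - (l - 1 - k : ℕ)) / (B * Real.log B) := by
      rw [le_div_iff₀ B0]
      have : ((l - 1 - k : ℕ) : ℝ) + 2 * Y ≤ (r + 1 + k : ℕ) := by
        exact_mod_cast (by omega : l - 1 - k + 2 * Y ≤ r + 1 + k)
      linarith
    have a4 := mul_le_mul_of_nonneg_left
      ((mul_le_mul_of_nonneg_left a3 (M.a_nonneg (l - 1 - k))).trans a2) t0
    have a5 := mul_le_mul_of_nonneg_left a1 t2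
    simp only [hf]; nlinarith
  have f3 : ∀ k, f k ≤ 3 := fun k => by
    have a1 := mul_nonneg t0 (M.a_nonneg (l - 1 - k))
    have a2 := mul_le_mul_of_nonneg_left (M.a_le (r + 1 + k)) t0
    have a3 := mul_le_mul_of_nonneg_left (M.a_le (l - 1 - k)) t2
    have a4 := mul_le_mul_of_nonneg_left (M.a_le (r + 1 + k)) t2
    simp only [hf]; nlinarith
  obtain ⟨d, rfl⟩ := Nat.exists_eq_add_of_le h4
  rw [sum_range_add, sum_range_add]
  have s1 : ∑ k ∈ range Y, f k ≤ 2 * θ ^ 2 * Y := by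
    refine (sum_le_card_nsmul _ _ _ fun k hk => f1 k ?_ ?_).trans (by simp [mul_comm]) <;>
      have := mem_range.1 hk <;> omega
  have s2 : ∑ k ∈ range e, f (Y + k) ≤ -(2 * θ ^ 2 * ((e - Q) / Real.log B)) := by
    refine le_trans (sum_le_sum (g := fun k => -(2 * θ ^ 2 * (ch Q (r + 1 + Y + k) / Real.log B)))
      fun k hk => ?_) ?_
    · have := mem_range.1 hk
      refine (f2 _ (by omega) (by omega) (by omega)).trans (neg_le_neg ?_)
      refine mul_le_mul_of_nonneg_left ?_ (by positivity)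
      rw [add_assoc _ Y, ← ch_match (dv (Y + k) (by omega))]
      exact g.ge (by omega) (le_trans (by exact_mod_cast (by omega : l - 1 - (Y + k) ≤ r)) r0)
    · rw [sum_neg_distrib, ← mul_sum, ← sum_div]
      exact neg_le_neg (mul_le_mul_of_nonneg_left
        (div_le_div_of_nonneg_right (sum_ch g.pos _ _).1 (by linarith)) (by positivity))
  have s3 : ∑ k ∈ range d, f (Y + e + k) ≤ 3 * m0 := by
    refine le_trans (sum_le_sum (g := fun k => if l - 1 - (Y + e + k) < m0 then 3 else 0)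
      fun k hk => ?_) ?_
    · have := mem_range.1 hk
      split_ifs with h
      · exact f3 _
      · refine (f2 _ (by omega) (by omega) (by omega)).trans (neg_nonpos.2 ?_)
        exact mul_nonneg (by positivity) (M.a_nonneg _)
    · rw [← sum_filter, sum_const, nsmul_eq_mul, mul_comm]
      refine mul_le_mul_of_nonneg_left ?_ (by norm_num)
      have := card_le_card_of_injOn (s := {k ∈ range d | l - 1 - (Y + e + k) < m0})
        (t := range m0) (fun k => l - 1 - (Y + e + k)) (fun k hk => by simp at hk ⊢; exact hk.2)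
        (fun k hk j hj h => by simp at hk hj h; omega)
      rw [card_range] at this
      exact_mod_cast this
  linarith

end Md

end Pool.Agent.P.MP_0a88e3_nt
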