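import Pool.Agent.P.MP_0a88e3_nt.Walk

set_option autoImplicit false

open Finset

namespace Pool.Agent.P.MP_0a88e3_nt

/-- No point in `(m, m + G]`. -/
def Gap (m G : ℕ) (x : Cfg) : Prop := ∀ j, m < j → j ≤ m + G → x j = false

/-- Number of points below `a`. -/
def ct (x : Cfg) (a : ℕ) : ℕ := Nat.count (fun m => x m = true) a

/-- The `n`-th point. -/
noncomputable def pt (x : Cfg) (n : ℕ) : ℕ := Nat.nth (fun m => x m = true) n

theorem ct_succ (x : Cfg) (a : ℕ) : (ct x (a + 1) : ℤ) = ct x a + bt (x a) := by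
  unfold ct bt
  rw [Nat.count_succ]
  cases x a <;> simp

theorem ct_mono (x : Cfg) {a b : ℕ} (h : a ≤ b) : ct x a ≤ ct x b := Nat.count_monotone _ h

theorem ct_add (x : Cfg) (a g : ℕ) : ct x (a + g) ≤ ct x a + g := by
  unfold ct
  rw [Nat.count_add]
  exact Nat.add_le_add_left (Nat.count_le _) _

theorem W_ct {l r k : ℕ} (hk : k ≤ l) (x : Cfg) :
    W l r k x = ct x l - ct x (l - k) - (ct x (r + 1 + k) - ct x (r + 1)) := by
  induction k with
  | zero => simp [W]
  | succ k ih =>
    rw [W_succ, ih (by omega), show l - k = l - (k + 1) + 1 by omega, ct_succ,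
      show r + 1 + (k + 1) = r + 1 + k + 1 by ring, ct_succ x (r + 1 + k),
      show l - 1 - k = l - (k + 1) by omega]
    ring

theorem Gap.ct {m G : ℕ} {x : Cfg} (h : Gap m G x) : ct x (m + G + 1) = ct x (m + 1) := by
  induction G with
  | zero => rfl
  | succ G ih =>
    have h1 := ct_succ x (m + G + 1)
    rw [h (m + G + 1) (by omega) (by omega), ih fun j a b => h j a (by omega)] at h1
    simpa [bt, ← add_assoc] using h1

variable {x : Cfg} (hx : {m | x m = true}.Infinite)
include hx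

theorem ct_pt (n : ℕ) : ct x (pt x n) = n := Nat.count_nth_of_infinite hx n

theorem ct_pt_succ (n : ℕ) : ct x (pt x n + 1) = n + 1 := Nat.count_nth_succ_of_infinite hx n

theorem ct_le {a b : ℕ} : ct x a ≤ b ↔ a ≤ pt x b := Nat.count_le_iff_le_nth hx

theorem pt_lt {a b : ℕ} (h : a < b) : pt x a < pt x b := Nat.nth_strictMono hx h

theorem pt_mem (n : ℕ) : x (pt x n) = true := Nat.nth_mem_of_infinite hx n

theorem link_a {n G : ℕ} (h1 : Gap (pt x n) G x) (h2 : I (pt x n) (pt x n + G) 0 (pt x n) x)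
    {i : ℕ} (hi : 0 < i) (hn : i ≤ n) : 2 * pt x n + G ≤ pt x (n - i) + pt x (n + i) := by
  have a1 := pt_lt hx (show n - i < n by omega)
  have a2 := h2 (pt x n - pt x (n - i) - 1) (by omega)
  rw [W_ct (by omega), h1.ct, ct_pt_succ hx, ct_pt hx,
    show pt x n - (pt x n - pt x (n - i) - 1) = pt x (n - i) + 1 by omega, ct_pt_succ hx] at a2
  have a3 := (ct_le hx (a := pt x n + G + 1 + (pt x n - pt x (n - i) - 1)) (b := n + i)).1
    (by omega)
  omega

theorem link_gap {n G : ℕ} (hn : 0 < n)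
    (h : ∀ i, 0 < i → i ≤ n → 2 * pt x n + G ≤ pt x (n - i) + pt x (n + i)) :
    Gap (pt x n) G x := by
  intro j h1 h2
  by_contra h3
  have a1 := h 1 one_pos hn
  have a2 := pt_lt hx (show n - 1 < n by omega)
  have a3 := (ct_le hx (a := j + 1) (b := n + 1)).2 (by omega)
  have a4 := ct_succ x j
  have a5 := ct_mono x (show pt x n + 1 ≤ j by omega)
  rw [ct_pt_succ hx] at a5
  simp only [Bool.not_eq_false] at h3
  simp only [h3, bt, if_true] at a4
  omega

theorem link_b {n G g y : ℕ} (hn : 0 < n)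
    (h : ∀ i, 0 < i → i ≤ n → 2 * pt x n + G ≤ pt x (n - i) + pt x (n + i))
    (hy : y + g + pt x 0 < pt x n) : I (pt x n - g) (pt x n + G) g y x := by
  intro k hk
  rw [W_ct (by omega), (link_gap hx hn h).ct, ct_pt_succ hx]
  have a1 := ct_add x (pt x n - g) g
  rw [show pt x n - g + g = pt x n by omega, ct_pt hx] at a1
  have a2 := ct_mono x (show pt x n - g - k ≤ pt x n - k by omega)
  have a3 := ct_mono x (show pt x n - g - k ≤ pt x n - g by omega)
  by_cases h1 : ct x (pt x n + G + 1 + k) ≤ n + 1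
  · omega
  obtain ⟨i, hi⟩ : ∃ i, ct x (pt x n + G + 1 + k) = n + 1 + i :=
    ⟨_, (Nat.add_sub_cancel' (by omega)).symm⟩
  have a4 : ∀ b, b ≤ n + i → pt x b < pt x n + G + 1 + k := fun b hb => by
    by_contra h2
    have := (ct_le hx (a := pt x n + G + 1 + k) (b := b)).2 (by omega)
    omega
  by_cases h2 : i ≤ n
  · have a5 := h i (by omega) h2
    have a6 := a4 _ le_rfl
    have a7 := (ct_le hx (a := pt x n - k) (b := n - i)).2 (by omega)
    omega
  · have a5 := h n hn le_rfl
    have a6 := a4 (n + n) (by omega)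
    rw [Nat.sub_self] at a5
    omega

end Pool.Agent.P.MP_0a88e3_nt
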