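import Pool.Agent.P.MP_0a88e3_nt.Core

set_option autoImplicit false

open Finset

namespace Pool.Agent.P.MP_0a88e3_nt

theorem pw {C u a b : ℕ} (h : C ≤ u) (h0 : 0 < u) (hb : a < b) : C * u ^ a ≤ u ^ b :=
  (Nat.mul_le_mul_right _ h).trans (by rw [← pow_succ']; exact Nat.pow_le_pow_right h0 hb)

theorem ex_match {Q : ℕ} (hQ : 0 < Q) (n : ℕ) : ∃ g < Q, Q ∣ n + g := by
  refine ⟨(Q - n % Q) % Q, Nat.mod_lt _ hQ, Nat.dvd_of_mod_eq_zero ?_⟩
  rw [Nat.add_mod_mod, ← Nat.mod_add_mod, Nat.add_sub_cancel' (Nat.mod_lt n hQ).le, Nat.mod_self]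

/-- A point with a long gap after it whose walk never dies. -/
def Gd (c : ℝ) (m : ℕ) (x : Cfg) : Prop := ∃ G : ℕ, c * Real.log m ^ 2 < G ∧ Ev m G 0 m x

theorem card_cop {Q : ℕ} (hQ : 0 < Q) {x : ℕ} (h : 2 * Q ≤ x) :
    (x : ℝ) / (2 * Q) ≤ #{m ∈ Ico (x + 1) (x + 1 + x) | m.Coprime Q} := by
  have h1 := (sum_ch hQ x (x + 1)).1
  have h2 : ∑ k ∈ range x, ch Q (x + 1 + k) = ∑ k ∈ Ico (x + 1) (x + 1 + x), ch Q k := by
    rw [sum_Ico_eq_sum_range, Nat.add_sub_cancel_left]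
  rw [h2] at h1
  simp only [ch] at h1
  rw [← sum_filter, sum_const, nsmul_eq_mul] at h1
  have h3 := mul_le_mul_of_nonneg_left (ka_le hQ)
    (Nat.cast_nonneg (α := ℝ) #{m ∈ Ico (x + 1) (x + 1 + x) | m.Coprime Q})
  have h4 : 2 * (Q : ℝ) ≤ x := by exact_mod_cast h
  have h5 : (0 : ℝ) < Q := by exact_mod_cast hQ
  rw [div_le_iff₀ (by linarith)]
  linarith

variable {Ω : Type*} [MeasurableSpace Ω] {M : Md Ω} {Q m0 : ℕ}

namespace Md

theorem Good.persP (g : M.Good Q m0) {u a b l r : ℕ} {h : ℤ} (h0 : 0 ≤ h) (hu : 24 ≤ u)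
    (h1 : m0 ≤ u) (h2 : Q ≤ u) (h3 : Real.log (2 * l) ≤ u) (h4 : 2 * b + 1 < a)
    (h5 : u ^ (a + b + 1) ≤ l) (h6 : l ≤ r) (h7 : r ≤ l + u) (h8 : Q ∣ l + r) :
    M.π l r h (u ^ a) ≤ 2 * (h + 1) / (u : ℝ) ^ b := by
  have u0 : 0 < u := by omega
  have a1 : u ≤ u ^ a := Nat.le_self_pow (by omega) u
  have a2 := pw (show 2 ≤ u by omega) u0 (show a < a + b + 1 by omega)
  have a3 := pw hu u0 (show a + b < a + b + 1 by omega)
  have a4 := pw (show 3 ≤ u by omega) u0 h4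
  have a5 : u ≤ u ^ (2 * b + 1) := Nat.le_self_pow (by omega) u
  have := g.persU (H := u ^ b) (y := u ^ a) h0 (Nat.pow_pos u0) (by omega) h8 h6 (by omega)
    (by rw [mul_assoc, ← pow_add]; omega) (by
      have b1 : ((2 * u ^ (2 * b + 1) + Q : ℕ) : ℝ) ≤ (u ^ a : ℕ) := by exact_mod_cast (by omega)
      have b2 := mul_le_mul_of_nonneg_left h3 (show 0 ≤ 2 * ((u : ℝ) ^ b) ^ 2 by positivity)
      push_cast at b1 ⊢
      have : (u : ℝ) ^ (2 * b + 1) = ((u : ℝ) ^ b) ^ 2 * u := by ring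
      linarith)
  exact_mod_cast this

theorem Good.farP (g : M.Good Q m0) {u s m r w : ℕ} {L : ℝ} (hL : L = Real.log (5 * u ^ (3 * s)))
    (L1 : 1 ≤ L) (h1 : 300 * (m0 + 1) * L ^ 4 ≤ u) (h2 : Q ≤ u) (hs : 2 ≤ s) (hm : u ^ (3 * s) ≤ m)
    (hd : Q ∣ m + r) (hr : m ≤ r) (hw : u ^ (2 * s + 1) ≤ w) (hw' : w ≤ m)
    (hB : r + w ≤ 5 * u ^ (3 * s)) :
    M.E (fun x => Real.exp (-((u : ℝ) ^ (2 * s) / (10 * u ^ (3 * s) * L)) * W m r w x)) ≤
      Real.exp (-(3 * L)) := by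
  have L4 : L ≤ L ^ 4 := le_self_pow₀ L1 (by norm_num)
  have m00 : (0 : ℝ) ≤ m0 := m0.cast_nonneg
  have u1 : (m0 : ℝ) + 300 ≤ u := by nlinarith
  have u2 : m0 + 300 ≤ u := by exact_mod_cast u1
  have u0 : 0 < u := by omega
  have u3 : (0 : ℝ) < u := by linarith
  have a1 : u ≤ u ^ (2 * s) := Nat.le_self_pow (by omega) u
  have a2 := pw (show 1 ≤ u by omega) u0 (show 2 * s < 2 * s + 1 by omega)
  have a3 := pw (show 2 ≤ u by omega) u0 (show 2 * s + 1 < 3 * s by omega)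
  obtain ⟨e, he⟩ : ∃ e, u ^ (2 * s + 1) = u ^ (2 * s) + e := Nat.exists_eq_add_of_le (by omega)
  have a4 : (u : ℝ) ^ (2 * s) ≤ u ^ (3 * s) := by exact_mod_cast (by omega)
  have x0 : (0 : ℝ) < u ^ (3 * s) := by positivity
  refine (g.far (Y := u ^ (2 * s)) (e := e) (B := 5 * u ^ (3 * s)) (by omega) hd hr (by omega) hw'
    (by exact_mod_cast hB) (by positivity) ?_ ?_).trans (Real.exp_le_exp.2 ?_)
  · rw [div_le_one (by positivity)]; nlinarith
  · rw [← hL]; push_cast; exact le_of_eq (by field_simp; norm_num)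
  · rw [← hL]
    have e1 : (e : ℝ) = u ^ (2 * s) * u - u ^ (2 * s) := by
      rw [eq_sub_iff_add_eq, ← pow_succ, add_comm]; exact_mod_cast he.symm
    have q1 : (Q : ℝ) ≤ u ^ (2 * s) := by exact_mod_cast h2.trans a1
    have e2 : (u : ℝ) ^ (3 * s) = (u ^ s) ^ 3 := by ring
    have e3 : (u : ℝ) ^ (2 * s) = (u ^ s) ^ 2 := by ring
    push_cast
    rw [e1, e2, e3]
    rw [e3] at q1
    have v0 : (0 : ℝ) < u ^ s := by positivity
    generalize (u : ℝ) ^ s = v at *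
    have b1 : v ^ 2 - (v ^ 2 * u - v ^ 2 - Q) / L ≤ -(v ^ 2 * u / (2 * L)) := by
      have : v ^ 2 - (v ^ 2 * u - v ^ 2 - Q) / L + v ^ 2 * u / (2 * L) =
          (v ^ 2 * (L + 1 - u / 2) + Q) / L := by field_simp; ring
      have b2 : (v ^ 2 * (L + 1 - u / 2) + Q) / L ≤ 0 := div_nonpos_of_nonpos_of_nonneg (by
        have : L + 1 - u / 2 ≤ -1 := by nlinarith
        nlinarith [sq_nonneg v]) (by linarith)
      linarith
    have b2 := mul_le_mul_of_nonneg_left b1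
      (show 0 ≤ 2 * (v ^ 2 / (10 * v ^ 3 * L)) ^ 2 by positivity)
    have b3 : 2 * (v ^ 2 / (10 * v ^ 3 * L)) ^ 2 * -(v ^ 2 * u / (2 * L)) =
        -(u / (100 * L ^ 3)) := by field_simp; ring
    have b4 : 3 * m0 + 3 * L ≤ u / (100 * L ^ 3) := by
      rw [le_div_iff₀ (by positivity)]
      have : L ^ 3 ≤ L ^ 4 := pow_le_pow_right₀ L1 (by norm_num)
      nlinarith
    linarith

theorem Good.q_ge (g : M.Good Q m0) {x m G : ℕ} {L c e : ℝ} (hL : L = Real.log (5 * x))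
    (hx : m0 ≤ x) (h1 : x ≤ m) (h2 : m ≤ 5 * x) (h3 : m.Coprime Q) (h4 : G ≤ c * L ^ 2 + 1 + Q)
    (ce : 0 ≤ c + e) (h5 : ka Q + 2 < L)
    (h6 : Real.log L + (c * L ^ 2 + 1 + 2 * Q) / (L - 2 - ka Q) ≤ (c + e) * (L - 2)) :
    Real.exp (-((c + e) * Real.log x)) ≤ M.a m * M.gp m G := by
  have k1 := one_le_ka g.pos
  have x0 := g.cpos hx
  have l5 : Real.log 5 ≤ 2 := by
    rw [Real.log_le_iff_le_exp (by norm_num), show (2 : ℝ) = 1 + 1 by norm_num, Real.exp_add]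
    nlinarith [Real.exp_one_gt_d9]
  have a1 : L - 2 ≤ Real.log x := by rw [hL, Real.log_mul (by norm_num) x0.ne']; linarith
  have a2 : Real.log x ≤ Real.log m := Real.log_le_log x0 (by exact_mod_cast h1)
  have a3 := g.ge (hx.trans h1) (B := 5 * x) (by exact_mod_cast h2)
  rw [← hL, ch, if_pos h3] at a3
  have a4 : Real.exp (-Real.log L) ≤ M.a m := by
    rw [Real.exp_neg, Real.exp_log (by linarith), ← one_div]
    exact (div_le_div_of_nonneg_right k1 (by linarith)).trans a3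
  refine le_trans ?_ (mul_le_mul a4 (g.gp_ge (hx.trans h1) G) (Real.exp_pos _).le (M.a_nonneg _))
  rw [← Real.exp_add, Real.exp_le_exp]
  have a5 : ((G : ℝ) + Q) / (Real.log m - ka Q) ≤ (c * L ^ 2 + 1 + 2 * Q) / (L - 2 - ka Q) :=
    (div_le_div_of_nonneg_left (by positivity) (by linarith) (by linarith)).trans
      (div_le_div_of_nonneg_right (by linarith) (by linarith))
  linarith [mul_le_mul_of_nonneg_left a1 ce]

end Md

end Pool.Agent.P.MP_0a88e3_nt
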