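import Pool.Agent.P.MP_0a88e3_nt.Low

set_option autoImplicit false

open Finset

namespace Pool.Agent.P.MP_0a88e3_nt

theorem num_var {u v q S Q : ℝ} (u1 : 1 ≤ u) (v1 : 1 ≤ v) (Q1 : 1 ≤ Q)
    (hq : 1 / (v ^ 8 * u ^ 5) ≤ q) (hS : v ^ 12 * u ^ 12 / (2 * Q) ≤ S) :
    (q * (S * (1 / (2 * (v ^ 4 * u ^ 5)))))⁻¹ + (6 * v ^ 4 + 1 + (2 / v) ^ 2 * (6 * v ^ 6 + 1) +
      (2 / (v ^ 2 * u ^ 5)) ^ 2 * (6 * (v ^ 8 * u ^ 9) + 1)) /
      (S * (1 / (2 * (v ^ 4 * u ^ 5))) ^ 2) ≤ 508 * Q / u := by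
  have u0 : 0 < u := by linarith
  have v0 : 0 < v := by linarith
  have Q0 : 0 < Q := by linarith
  have a1 : (q * (S * (1 / (2 * (v ^ 4 * u ^ 5)))))⁻¹ ≤ (1 / (v ^ 8 * u ^ 5) *
      (v ^ 12 * u ^ 12 / (2 * Q) * (1 / (2 * (v ^ 4 * u ^ 5)))))⁻¹ :=
    inv_anti₀ (by positivity) (mul_le_mul hq (mul_le_mul_of_nonneg_right hS (by positivity))
      (by positivity) (le_trans (by positivity) hq))
  have a2 : (1 / (v ^ 8 * u ^ 5) * (v ^ 12 * u ^ 12 / (2 * Q) * (1 / (2 * (v ^ 4 * u ^ 5)))))⁻¹ =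
      4 * Q / u ^ 2 := by field_simp; ring
  have b1 : 1 ≤ v ^ 4 := one_le_pow₀ v1
  have b2 : (2 / v) ^ 2 * (6 * v ^ 6 + 1) ≤ 28 * v ^ 4 := by
    have : 1 ≤ v ^ 6 := one_le_pow₀ v1
    calc _ ≤ (2 / v) ^ 2 * (7 * v ^ 6) := by gcongr; linarith
      _ = _ := by field_simp; ring
  have b3 : (2 / (v ^ 2 * u ^ 5)) ^ 2 * (6 * (v ^ 8 * u ^ 9) + 1) ≤ 28 * v ^ 4 := by
    have c1 : 1 ≤ v ^ 8 * u ^ 9 := one_le_mul_of_one_le_of_one_le (one_le_pow₀ v1) (one_le_pow₀ u1)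
    have c2 : v ^ 8 * u ^ 9 ≤ v ^ 8 * u ^ 10 := by gcongr; norm_num
    calc _ ≤ (2 / (v ^ 2 * u ^ 5)) ^ 2 * (7 * (v ^ 8 * u ^ 10)) := by gcongr; linarith
      _ = _ := by field_simp; ring
  have b4 : (6 * v ^ 4 + 1 + (2 / v) ^ 2 * (6 * v ^ 6 + 1) +
      (2 / (v ^ 2 * u ^ 5)) ^ 2 * (6 * (v ^ 8 * u ^ 9) + 1)) /
      (S * (1 / (2 * (v ^ 4 * u ^ 5))) ^ 2) ≤
      63 * v ^ 4 / (v ^ 12 * u ^ 12 / (2 * Q) * (1 / (2 * (v ^ 4 * u ^ 5))) ^ 2) :=
    div_le_div₀ (by positivity) (by linarith) (by positivity)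
      (mul_le_mul_of_nonneg_right hS (by positivity))
  have b5 : 63 * v ^ 4 / (v ^ 12 * u ^ 12 / (2 * Q) * (1 / (2 * (v ^ 4 * u ^ 5))) ^ 2) =
      504 * Q / u ^ 2 := by field_simp; ring
  have b6 : 508 * Q / u ^ 2 ≤ 508 * Q / u :=
    div_le_div_of_nonneg_left (by positivity) u0 (le_self_pow₀ u1 two_ne_zero)
  have b7 : 508 * Q / u ^ 2 = 4 * Q / u ^ 2 + 504 * Q / u ^ 2 := by ring
  linarith

variable {Ω : Type*} [MeasurableSpace Ω] {M : Md Ω} {Q m0 : ℕ}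

namespace Md

theorem Good.lowA (g : M.Good Q m0) {u s X : ℕ} {c e L : ℝ} (hX : X = u ^ (3 * (4 * s + 4)))
    (hL : L = Real.log (5 * X)) (hs : 6 ≤ s) (c0 : 0 ≤ c) (e0 : 0 ≤ e)
    (hce : (c + e) * (12 * s + 12) ≤ 8 * s + 5) (h1 : 300 * (m0 + 1) * L ^ 4 ≤ u)
    (h2 : c * L ^ 2 + 1 + Q ≤ u) (h5 : ka Q + 2 < L)
    (h6 : Real.log L + (c * L ^ 2 + 1 + 2 * Q) / (L - 2 - ka Q) ≤ (c + e) * (L - 2)) :
    ∃ f : Cfg → ℝ, Loc f ∧ (∀ x, 0 ≤ f x) ∧ M.E f ≤ (2032 * Q + 1) / u ∧ ∀ x, f x < 1 →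
      Real.exp (-((c + e) * Real.log X)) * X / (8 * Q * u ^ (4 * s + 5)) ≤
        ∑ m ∈ Ico (X + 1) (X + 1 + X), io (Gd c m x) := by
  have L1 : 1 ≤ L := by linarith [ka_nonneg Q]
  have L4 : L ≤ L ^ 4 := le_self_pow₀ L1 (by norm_num)
  have m00 : (0 : ℝ) ≤ m0 := m0.cast_nonneg
  have u1 : (m0 : ℝ) + 300 ≤ u := by nlinarith
  have u2 : m0 + 300 ≤ u := by exact_mod_cast u1
  have u0 : 0 < u := by omega
  have u3 : (1 : ℝ) ≤ u := by linarith
  have cL : 0 ≤ c * L ^ 2 := by positivity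
  have uQ : Q + 1 ≤ u := by exact_mod_cast (by linarith : (Q : ℝ) + 1 ≤ u)
  have Q1 : (1 : ℝ) ≤ Q := by exact_mod_cast g.pos
  choose k hk1 hk2 using fun m => ex_match g.pos (m + (m + (⌊c * L ^ 2⌋₊ + 1)))
  set G : ℕ → ℕ := fun m => ⌊c * L ^ 2⌋₊ + 1 + k m with hG
  have G1 : ∀ m, (G m : ℝ) ≤ c * L ^ 2 + 1 + Q := fun m => by
    have : (k m : ℝ) ≤ Q := by exact_mod_cast (hk1 m).le
    simp only [hG]; push_cast; linarith [Nat.floor_le cL]
  have G2 : ∀ m, G m ≤ u := fun m => by exact_mod_cast (G1 m).trans h2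
  have G3 : ∀ m, Q ∣ m + (m + G m) := fun m => by simpa only [hG, add_assoc] using hk2 m
  have G4 : ∀ m, c * L ^ 2 < G m := fun m => by
    simp only [hG]; push_cast; linarith [Nat.lt_floor_add_one (c * L ^ 2), (k m).cast_nonneg (α := ℝ)]
  set S := {m ∈ Ico (X + 1) (X + 1 + X) | m.Coprime Q} with hS
  have mS : ∀ m ∈ S, X < m ∧ m ≤ 2 * X ∧ m.Coprime Q := fun m hm => by
    simp only [hS, mem_filter, mem_Ico] at hm
    exact ⟨by omega, by omega, hm.2⟩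
  have px : ∀ a, a ≤ 3 * (4 * s + 4) → u ^ a ≤ X := fun a ha => hX ▸ Nat.pow_le_pow_right u0 ha
  have x1 : 2 * u ≤ X := by
    have := pw (show 2 ≤ u by omega) u0 (show 1 < 2 by omega)
    have := px 2 (by omega)
    rw [pow_one] at *
    omega
  have x0 : (0 : ℝ) < X := by exact_mod_cast (by omega : 0 < X)
  have lg : ∀ m ∈ S, Real.log (2 * m) ≤ L := fun m hm => by
    have := mS m hm
    rw [hL]
    exact Real.log_le_log (by exact_mod_cast (by omega : 0 < 2 * m))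
      (by exact_mod_cast (by omega : 2 * m ≤ 5 * X))
  have pP : ∀ a b, 2 * b + 1 < a → a + b + 1 ≤ 3 * (4 * s + 4) → ∀ m ∈ S,
      M.π m (m + G m) 0 (u ^ a) ≤ 2 / (u : ℝ) ^ b := fun a b ha hb m hm => by
    have := mS m hm
    have := px _ hb
    have := G2 m
    simpa using g.persP (h := 0) (u := u) (a := a) (b := b) (l := m) (r := m + G m) le_rfl
      (by omega) (by omega) (by omega) ((lg m hm).trans (by nlinarith)) ha (by omega) (by omega)
      (by omega) (G3 m)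
  have cS := card_cop g.pos (show 2 * Q ≤ X by omega)
  rw [← hS] at cS
  have y1 := px (2 * (4 * s + 4) + 1 + 1) (by omega)
  have y2 := pw (show 2 ≤ u by omega) u0 (show 2 * (4 * s + 4) + 1 < 2 * (4 * s + 4) + 1 + 1 by omega)
  have y3 : u ≤ u ^ (2 * (4 * s + 4) + 1) := Nat.le_self_pow (by omega) u
  have xr : (X : ℝ) = u ^ (3 * (4 * s + 4)) := by exact_mod_cast hX
  obtain ⟨f, f1, f2, f3, f4⟩ := M.core G S (y := u ^ (4 * s)) (z := u ^ (6 * s))
    (Y := u ^ (2 * (4 * s + 4) + 1)) (N := 2 * X) (q := Real.exp (-((c + e) * Real.log X)))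
    (p := 1 / (2 * ((u ^ (4 * s + 5) : ℕ) : ℝ))) (δ := Real.exp (-(3 * L)))
    (θ := (u : ℝ) ^ (2 * (4 * s + 4)) / (10 * u ^ (3 * (4 * s + 4)) * L))
    (Nat.pow_le_pow_right u0 (by omega)) (Nat.pow_le_pow_right u0 (by omega))
    (fun m hm => by have := mS m hm; omega)
    (fun m _ => (G2 m).trans (Nat.le_self_pow (by omega) u)) (Real.exp_pos _)
    (fun m hm => g.q_ge hL (by omega) (mS m hm).1.le (by have := mS m hm; omega) (mS m hm).2.2
      (G1 m) (by linarith) h5 h6)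
    (pP (4 * s) s (by omega) (by omega)) (pP (6 * s) (2 * s + 5) (by omega) (by omega))
    (Nat.cast_pos.1 (lt_of_lt_of_le (by positivity) cS)) (by positivity)
    (fun m hm => g.persL (Nat.pow_pos u0) (by have := mS m hm; omega) (G3 m) (by omega)
      (by rw [← pow_mul]; exact pw (by omega) u0 (by omega)))
    (by positivity) (Real.exp_pos _).le (fun m hm => (mS m hm).2.1)
    (fun m hm w hw hw' => g.farP (s := 4 * s + 4) (by rw [hL, xr]) L1 h1 (by omega) (by omega)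
      (by have := mS m hm; omega) (G3 m) (by omega) hw hw'
      (by have := mS m hm; have := G2 m; omega))
  refine ⟨f, f1, f2, f3.trans ?_, fun x hx => le_trans ?_ ((f4 x hx).trans ?_)⟩
  · have v1 : (1 : ℝ) ≤ u ^ s := one_le_pow₀ u3
    have a1 := num_var (q := Real.exp (-((c + e) * Real.log X))) (S := #S) u3 v1 Q1 (by
      rw [xr, Real.log_pow, show ((u : ℝ) ^ s) ^ 8 * u ^ 5 = u ^ (8 * s + 5) by ring,
        ← Real.exp_log (show (0 : ℝ) < u ^ (8 * s + 5) by positivity), one_div, ← Real.exp_neg,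
        Real.exp_le_exp, Real.log_pow]
      push_cast
      nlinarith [mul_le_mul_of_nonneg_right hce (Real.log_nonneg u3)])
      (by rwa [show ((u : ℝ) ^ s) ^ 12 * u ^ 12 = X by rw [xr]; ring])
    have a2 : (#S : ℝ) ≤ X := by
      have := card_filter_le (Ico (X + 1) (X + 1 + X)) fun m => m.Coprime Q
      rw [Nat.card_Ico, Nat.add_sub_cancel_left] at this
      exact_mod_cast this
    have a3 : Real.exp (-(3 * L)) = 1 / (5 * X) ^ 3 := by
      rw [Real.exp_neg, hL, one_div, ← Real.exp_log (show (0 : ℝ) < (5 * X) ^ 3 by positivity),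
        Real.log_pow]
      norm_num
    have x2 : (u : ℝ) ≤ X := by exact_mod_cast (by omega : u ≤ X)
    have a4 : (#S : ℝ) * ((((2 * X : ℕ) : ℝ) + 1) * Real.exp (-(3 * L))) ≤ 1 / u := by
      rw [a3]
      calc _ ≤ (X : ℝ) * ((125 * X) * (1 / (5 * X) ^ 3)) := by
            gcongr; push_cast; linarith
        _ = 1 / X := by field_simp; ring
        _ ≤ _ := one_div_le_one_div_of_le (by linarith) x2
    have a5 : (2032 * (Q : ℝ) + 1) / u = 4 * (508 * Q / u) + 1 / u := by ring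
    rw [a5]
    refine add_le_add (mul_le_mul_of_nonneg_left (le_of_eq_of_le ?_ a1) (by norm_num)) a4
    push_cast
    ring
  · push_cast
    calc _ = Real.exp (-((c + e) * Real.log X)) * (X / (2 * Q) * (1 / (2 * u ^ (4 * s + 5)))) / 2 := by
          field_simp; ring
      _ ≤ _ := by gcongr
  · refine le_trans (sum_le_sum fun m hm => io_mono fun H => ⟨G m, ?_, H⟩)
      (sum_le_sum_of_subset_of_nonneg (filter_subset _ _) fun _ _ _ => io_nonneg _)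
    refine lt_of_le_of_lt (mul_le_mul_of_nonneg_left ?_ c0) (G4 m)
    have := mS m hm
    have m1 : (1 : ℝ) ≤ m := by exact_mod_cast (by omega : 1 ≤ m)
    exact pow_le_pow_left₀ (Real.log_nonneg m1)
      ((Real.log_le_log (by linarith) (by linarith)).trans (lg m hm)) 2

end Md

end Pool.Agent.P.MP_0a88e3_nt
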