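import Pool.Agent.P.MP_0a88e3_nt.Low2

set_option autoImplicit false

open Finset Filter MeasureTheory

namespace Pool.Agent.P.MP_0a88e3_nt

theorem ev_log {δ : ℝ} (hδ : 0 < δ) (n : ℕ) : ∀ᶠ x : ℝ in atTop, Real.log x ^ n ≤ δ * x := by
  filter_upwards [(Real.isLittleO_pow_log_id_atTop (n := n)).bound hδ, eventually_ge_atTop 0]
    with x h h0
  rw [id, Real.norm_of_nonneg h0] at h
  exact (Real.le_norm_self _).trans h

theorem ev_pow (A : ℝ) (K n : ℕ) :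
    ∀ᶠ u : ℕ in atTop, A * Real.log (5 * ((u ^ K : ℕ) : ℝ)) ^ n ≤ u := by
  have p : 0 < (|A| + 1) * ((K : ℝ) + 1) ^ n := by positivity
  filter_upwards [tendsto_natCast_atTop_atTop.eventually (ev_log (inv_pos.2 p) n),
    eventually_ge_atTop 5] with u h h5
  have u5 : (5 : ℝ) ≤ u := by exact_mod_cast h5
  have k1 : (1 : ℝ) ≤ u ^ K := one_le_pow₀ (by linarith)
  have a1 : Real.log (5 * ((u ^ K : ℕ) : ℝ)) ≤ (K + 1) * Real.log u := by
    push_cast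
    rw [Real.log_mul (by norm_num) (by positivity), Real.log_pow]
    linarith [Real.log_le_log (by norm_num) u5]
  have a0 : 0 ≤ Real.log (5 * ((u ^ K : ℕ) : ℝ)) := Real.log_nonneg (by push_cast; linarith)
  rw [inv_mul_eq_div, le_div_iff₀ p] at h
  calc _ ≤ (|A| + 1) * ((K + 1) * Real.log u) ^ n :=
        mul_le_mul (by linarith [le_abs_self A]) (pow_le_pow_left₀ a0 a1 n) (by positivity)
          (by positivity)
    _ = _ := by rw [mul_pow]; ring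
    _ ≤ _ := h

theorem tend_L {K : ℕ} (hK : K ≠ 0) :
    Tendsto (fun u : ℕ => Real.log (5 * ((u ^ K : ℕ) : ℝ))) atTop atTop :=
  Real.tendsto_log_atTop.comp ((tendsto_natCast_atTop_atTop.comp
    (tendsto_pow_atTop hK)).const_mul_atTop (by norm_num))

theorem ev_q {c e k D : ℝ} (c0 : 0 ≤ c) (e0 : 0 < e) (k0 : 0 ≤ k) (D0 : 0 ≤ D) :
    ∀ᶠ L : ℝ in atTop, Real.log L + (c * L ^ 2 + D) / (L - 2 - k) ≤ (c + e) * (L - 2) := by
  filter_upwards [ev_log (half_pos e0) 1, eventually_ge_atTop (2 * (2 + k)),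
    eventually_ge_atTop (2 / e * (2 * c * (2 + k) + D + 2 * c + 2 * e))] with L h1 h2 h3
  have a1 : (c * L ^ 2 + D) / (L - 2 - k) ≤ c * L + 2 * c * (2 + k) + D := by
    rw [div_le_iff₀ (by linarith)]
    have b1 := mul_nonneg (mul_nonneg c0 (show 0 ≤ 2 + k by linarith))
      (show 0 ≤ L - 2 * (2 + k) by linarith)
    have b2 := mul_nonneg D0 (show 0 ≤ L - 3 - k by linarith)
    nlinarith
  rw [div_mul_eq_mul_div, div_le_iff₀ e0] at h3
  rw [pow_one] at h1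
  nlinarith

theorem sc_tend {K : ℕ} (hK : K ≠ 0) : Tendsto (Nat.log (2 ^ K)) atTop atTop :=
  tendsto_atTop_atTop.2 fun t => ⟨(2 ^ K) ^ t, fun _ h =>
    Nat.le_log_of_pow_le (Nat.one_lt_two_pow hK) h⟩

theorem sc_le (K : ℕ) {X : ℕ} (hX : X ≠ 0) : (2 ^ Nat.log (2 ^ K) X) ^ K ≤ X := by
  rw [pow_right_comm]; exact Nat.pow_log_le_self _ hX

theorem sc_lt {K : ℕ} (hK : K ≠ 0) (X : ℕ) : X < 2 ^ K * (2 ^ Nat.log (2 ^ K) X) ^ K := by
  rw [pow_right_comm, ← pow_succ']; exact Nat.lt_pow_succ_log_self (Nat.one_lt_two_pow hK) X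

theorem ev_const (A : ℝ) {δ : ℝ} (hδ : 0 < δ) : ∀ᶠ X : ℕ in atTop, A ≤ (X : ℝ) ^ δ :=
  ((tendsto_rpow_atTop hδ).comp tendsto_natCast_atTop_atTop).eventually_ge_atTop A

variable {Ω : Type*} [MeasurableSpace Ω] {M : Md Ω} {Q m0 : ℕ}

namespace Md

theorem Good.lowB (g : M.Good Q m0) {s K : ℕ} {c e : ℝ} (hK : K = 3 * (4 * s + 4)) (hs : 6 ≤ s)
    (c0 : 0 ≤ c) (e0 : 0 < e) (hce : (c + e) * (12 * s + 12) ≤ 8 * s + 5) :
    ∀ᵐ ω ∂M.μ, ∀ᶠ t : ℕ in atTop,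
      (((2 ^ t) ^ K : ℕ) : ℝ) ^ (2 / 3 - c - e - 1 / K) / (8 * Q) ≤
        ∑ m ∈ Ico ((2 ^ t) ^ K + 1) ((2 ^ t) ^ K + 1 + (2 ^ t) ^ K), io (Gd c m (M.cfg ω)) := by
  have K0 : K ≠ 0 := by omega
  have ev : ∀ᶠ u : ℕ in atTop, ∃ f : Cfg → ℝ, Loc f ∧ (∀ x, 0 ≤ f x) ∧
      M.E f ≤ (2032 * Q + 1) / u ∧ ∀ x, f x < 1 →
      ((u ^ K : ℕ) : ℝ) ^ (2 / 3 - c - e - 1 / K) / (8 * Q) ≤
        ∑ m ∈ Ico (u ^ K + 1) (u ^ K + 1 + u ^ K), io (Gd c m x) := by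
    filter_upwards [ev_pow (300 * (m0 + 1)) K 4, ev_pow (c + 1 + Q) K 2,
      (tend_L K0).eventually_gt_atTop (ka Q + 2), eventually_gt_atTop 0,
      (tend_L K0).eventually (ev_q (D := 1 + 2 * Q) c0 e0 (ka_nonneg Q) (by positivity))]
      with u h1 h2 h3 h4 h5
    have L1 : 1 ≤ Real.log (5 * ((u ^ K : ℕ) : ℝ)) ^ 2 := one_le_pow₀ (by linarith [ka_nonneg Q])
    obtain ⟨f, f1, f2, f3, f4⟩ := g.lowA (X := u ^ K) (by rw [hK]) rfl hs c0 e0.le hce h1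
      (by nlinarith [Q.cast_nonneg (α := ℝ)]) h3 (by rwa [add_assoc (c * _)])
    refine ⟨f, f1, f2, f3, fun x hx => le_of_eq_of_le ?_ (f4 x hx)⟩
    have u0 : (0 : ℝ) < u := by exact_mod_cast h4
    have e1 : ∀ n : ℕ, (u : ℝ) ^ n = Real.exp (n * Real.log u) := fun n => by
      rw [← Real.log_pow, Real.exp_log (by positivity)]
    push_cast
    rw [Real.rpow_def_of_pos (by positivity), Real.log_pow, e1 K, e1 (4 * s + 5), ← Real.exp_add,
      mul_comm (8 * (Q : ℝ)), ← div_div _ (Real.exp _), ← Real.exp_sub, hK]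
    congr 2
    push_cast
    field_simp
    ring
  obtain ⟨t0, h⟩ := eventually_atTop.1
    ((tendsto_pow_atTop_atTop_of_one_lt (show 1 < 2 by norm_num)).eventually ev)
  choose f f1 f2 f3 f4 using fun t => h (t + t0) le_add_self
  have sm : Summable fun t => M.E (f t) := by
    refine Summable.of_nonneg_of_le (fun t => M.E_nonneg (f2 t)) (fun t => (f3 t).trans ?_)
      (summable_geometric_two.mul_left (2032 * (Q : ℝ) + 1))
    rw [one_div, inv_pow, ← div_eq_mul_inv]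
    push_cast
    exact div_le_div_of_nonneg_left (by positivity) (by positivity)
      (pow_le_pow_right₀ (by norm_num) le_self_add)
  filter_upwards [M.ae_summable f1 f2 sm] with ω hω
  obtain ⟨t1, h1⟩ := eventually_atTop.1 (hω.tendsto_atTop_zero.eventually (gt_mem_nhds one_pos))
  filter_upwards [eventually_ge_atTop (t1 + t0)] with t ht
  have := f4 (t - t0) _ (h1 _ (by omega))
  rwa [show t - t0 + t0 = t by omega] at this

theorem Good.lowC (g : M.Good Q m0) {c ε : ℝ} (c0 : 0 ≤ c) (c1 : c < 2 / 3) (e0 : 0 < ε) :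
    ∀ᵐ ω ∂M.μ, ∀ᶠ X : ℕ in atTop,
      (X : ℝ) ^ (2 / 3 - c - ε) ≤ ∑ m ∈ range (X + 1), io (Gd c m (M.cfg ω)) := by
  obtain ⟨e, e1, e2, e3⟩ : ∃ e, 0 < e ∧ e ≤ ε / 2 ∧ e ≤ (2 / 3 - c) / 2 :=
    ⟨min _ _, lt_min (by linarith) (by linarith), min_le_left _ _, min_le_right _ _⟩
  obtain ⟨s, hs⟩ := exists_nat_ge (6 + 1 / e)
  have i0 : 0 < 1 / e := by positivity
  have s6 : 6 ≤ s := by exact_mod_cast (by linarith : (6 : ℝ) ≤ s)
  have se : 1 ≤ s * e := by rw [← div_le_iff₀ e1]; linarith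
  have s0 : (0 : ℝ) ≤ s := s.cast_nonneg
  obtain ⟨K, hK⟩ : ∃ K, K = 3 * (4 * s + 4) := ⟨_, rfl⟩
  have K0 : K ≠ 0 := by omega
  have Kr : (K : ℝ) = 12 * s + 12 := by rw [hK]; push_cast; ring
  have k1 : 1 / (K : ℝ) ≤ e / 2 := by rw [div_le_iff₀ (by linarith)]; nlinarith
  have k0 : 0 < 1 / (K : ℝ) := by rw [Kr]; positivity
  have Q0 : (0 : ℝ) < Q := by exact_mod_cast g.pos
  filter_upwards [g.lowB hK s6 c0 e1 (by nlinarith)] with ω hω
  filter_upwards [((sc_tend K0).comp (Nat.tendsto_div_const_atTop two_ne_zero)).eventually hω,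
    ev_const (8 * Q * 2 ^ (K + 1)) k0, eventually_ge_atTop 2] with X h1 h2 h3
  have a1 := sc_le K (X := X / 2) (by omega)
  have a2 := sc_lt K0 (X / 2)
  simp only [Function.comp] at h1
  generalize (2 ^ Nat.log (2 ^ K) (X / 2)) ^ K = x at *
  refine le_trans ?_ (h1.trans (sum_le_sum_of_subset_of_nonneg
    (fun m hm => by simp at hm ⊢; omega) fun _ _ _ => io_nonneg _))
  have X1 : (1 : ℝ) ≤ X := by exact_mod_cast (by omega : 1 ≤ X)
  have a3 : (X : ℝ) ≤ 2 ^ (K + 1) * x := by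
    exact_mod_cast (by rw [pow_succ', mul_assoc]; omega : X ≤ 2 ^ (K + 1) * x)
  obtain ⟨α, hα⟩ : ∃ α, α = 2 / 3 - c - e - 1 / (K : ℝ) := ⟨_, rfl⟩
  rw [← hα]
  have D1 : (1 : ℝ) ≤ 2 ^ (K + 1) := one_le_pow₀ (by norm_num)
  have a4 : (X : ℝ) ^ α ≤ 2 ^ (K + 1) * x ^ α := by
    refine (Real.rpow_le_rpow (by linarith) a3 (by linarith)).trans ?_
    rw [Real.mul_rpow (by linarith) x.cast_nonneg]
    exact mul_le_mul_of_nonneg_right (Real.rpow_le_self_of_one_le D1 (by linarith))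
      (by positivity)
  have a5 : (X : ℝ) ^ (2 / 3 - c - ε) * X ^ (1 / (K : ℝ)) ≤ X ^ α := by
    rw [← Real.rpow_add (by linarith)]
    exact Real.rpow_le_rpow_of_exponent_le X1 (by linarith)
  have a6 := mul_le_mul_of_nonneg_left h2 (show 0 ≤ (X : ℝ) ^ (2 / 3 - c - ε) by positivity)
  rw [le_div_iff₀ (by positivity)]
  refine le_of_mul_le_mul_right ?_ (show (0 : ℝ) < 2 ^ (K + 1) by linarith)
  linarith

end Md

end Pool.Agent.P.MP_0a88e3_nt
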