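import Pool.Agent.P.MP_0a88e3_nt.Up

set_option autoImplicit false

open Finset Filter MeasureTheory ProbabilityTheory

namespace Pool.Agent.P.MP_0a88e3_nt

def Bg (x : Cfg) (c : ℝ) : Set ℕ := {n | 0 < n ∧ ∀ i, 0 < i → i ≤ n →
  c * Real.log (pt x n) ^ 2 < (pt x (n - i) : ℝ) + pt x (n + i) - 2 * pt x n}

theorem sum_io (s : Finset ℕ) (p : ℕ → Prop) :
    ∑ m ∈ s, io (p m) = ({m | m ∈ s ∧ p m}.ncard : ℝ) := by
  classical
  rw [show {m | m ∈ s ∧ p m} = ↑(s.filter p) by ext; simp, Set.ncard_coe_finset, card_filter]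
  push_cast
  exact sum_congr rfl fun m _ => by by_cases h : p m <;> simp [io, h]

theorem ev_half {a b : ℝ} (C : ℝ) (h : a < b) (h0 : 0 < b) :
    ∀ᶠ X : ℕ in atTop, C * (X : ℝ) ^ a + C ≤ (X : ℝ) ^ b := by
  filter_upwards [ev_const (2 * C) h0, ev_const (2 * C) (sub_pos.2 h), eventually_gt_atTop 0]
    with X h1 h2 h3
  have := mul_le_mul_of_nonneg_right h2 (show 0 ≤ (X : ℝ) ^ a by positivity)
  rw [← Real.rpow_add (by exact_mod_cast h3), sub_add_cancel] at this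
  linarith

theorem inf_of {x : Cfg} {c a : ℝ} (ha : 0 < a) (h : ∀ᶠ X : ℕ in atTop,
    (X : ℝ) ^ a ≤ ∑ m ∈ range (X + 1), io (Gd c m x)) : {m | x m = true}.Infinite := by
  intro hf
  obtain ⟨X, h1, h2⟩ := (h.and (ev_const ({m | x m = true}.ncard + 1) ha)).exists
  rw [sum_io] at h1
  have := (Nat.cast_le (α := ℝ)).2 (Set.ncard_le_ncard
    (show {m | m ∈ range (X + 1) ∧ Gd c m x} ⊆ {m | x m = true} from
      fun m ⟨_, _, _, H⟩ => H.1) hf)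
  linarith

section
variable {x : Cfg} (hx : {m | x m = true}.Infinite)
include hx

theorem fin_le (s : Set ℕ) (X : ℕ) : {n ∈ s | pt x n ≤ X}.Finite :=
  (Set.finite_Iic X).subset fun _ hn => (Nat.le_nth fun h => absurd h hx).trans hn.2

theorem cnt_low {c d : ℝ} (h : c ≤ d) (X : ℕ) : ∑ m ∈ range (X + 1), io (Gd d m x) ≤
    {n ∈ Bg x c | pt x n ≤ X}.ncard + 1 := by
  rw [sum_io]
  have f := fin_le hx (Bg x c) X
  have a1 : {m | m ∈ range (X + 1) ∧ Gd d m x} ⊆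
      insert (pt x 0) (pt x '' {n ∈ Bg x c | pt x n ≤ X}) := by
    rintro m ⟨h1, G, h2, h3⟩
    obtain ⟨n, rfl⟩ : ∃ n, pt x n = m := ⟨_, Nat.nth_count h3.1⟩
    rcases n.eq_zero_or_pos with rfl | hn
    · exact Set.mem_insert _ _
    refine Or.inr ⟨n, ⟨⟨hn, fun i hi hi' => ?_⟩, by simpa [Nat.lt_succ_iff] using h1⟩, rfl⟩
    have b1 := (Nat.cast_le (α := ℝ)).2 (link_a hx h3.2.1 h3.2.2 hi hi')
    have b2 := mul_le_mul_of_nonneg_right h (sq_nonneg (Real.log (pt x n)))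
    push_cast at b1
    linarith
  exact_mod_cast (Set.ncard_le_ncard a1 ((f.image _).insert _)).trans
    ((Set.ncard_insert_le _ _).trans (Nat.succ_le_succ (Set.ncard_image_le f)))

theorem bd_of {c d : ℝ} (h : d ≤ c) (c0 : 0 ≤ c) {n : ℕ} (hn : n ∈ Bg x c)
    (h0 : 2 * pt x 0 < pt x n) : Bd d (pt x n) x := by
  intro g y hy
  have H : ∀ i, 0 < i → i ≤ n → 2 * pt x n + ⌊d * Real.log (pt x n) ^ 2⌋₊ ≤
      pt x (n - i) + pt x (n + i) := fun i h1 h2 => by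
    have b1 := hn.2 i h1 h2
    have b2 := (Nat.cast_le (α := ℝ)).2
      (Nat.floor_le_floor (mul_le_mul_of_nonneg_right h (sq_nonneg (Real.log (pt x n)))))
    have b3 := Nat.floor_le (mul_nonneg c0 (sq_nonneg (Real.log (pt x n))))
    exact_mod_cast (by linarith : 2 * (pt x n : ℝ) + ⌊d * Real.log (pt x n) ^ 2⌋₊ ≤
      pt x (n - i) + pt x (n + i))
  exact ⟨pt_mem hx n, link_gap hx hn.1 H, link_b hx hn.1 H (by omega)⟩

theorem cnt_up {c d b : ℝ} (h : d ≤ c) (c0 : 0 ≤ c) (b0 : 0 ≤ b)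
    (hs : Summable fun m : ℕ => (m : ℝ) ^ (-b) * io (Bd d m x)) :
    ∃ C : ℝ, ∀ X : ℕ, {n ∈ Bg x c | pt x n ≤ X}.ncard ≤ C * (X : ℝ) ^ b + C := by
  set T := ∑' m : ℕ, (m : ℝ) ^ (-b) * io (Bd d m x)
  have n0 : ∀ m : ℕ, 0 ≤ (m : ℝ) ^ (-b) * io (Bd d m x) := fun m =>
    mul_nonneg (by positivity) (io_nonneg _)
  have T0 : 0 ≤ T := tsum_nonneg n0
  refine ⟨T + (2 * pt x 0 + 1), fun X => ?_⟩
  have a1 : {n ∈ Bg x c | pt x n ≤ X}.ncard ≤
      (↑(range (2 * pt x 0 + 1)) ∪ {m | m ∈ Ioc 0 X ∧ Bd d m x}).ncard := by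
    refine Set.ncard_le_ncard_of_injOn (pt x) (fun n hn => ?_) (Nat.nth_injective hx).injOn
      ((finite_toSet _).union ((finite_toSet (Ioc 0 X)).subset fun m hm => hm.1))
    by_cases h0 : 2 * pt x 0 < pt x n
    · exact Or.inr ⟨mem_Ioc.2 ⟨by omega, hn.2⟩, bd_of hx h c0 hn.1 h0⟩
    · exact Or.inl (by simp; omega)
  have a2 := (Nat.cast_le (α := ℝ)).2 (a1.trans (Set.ncard_union_le _ _))
  rw [Set.ncard_coe_finset, card_range, Nat.cast_add, ← sum_io] at a2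
  have a3 : ∑ m ∈ Ioc 0 X, io (Bd d m x) ≤ (X : ℝ) ^ b * T := by
    refine le_trans ?_ (mul_le_mul_of_nonneg_left (hs.sum_le_tsum (Ioc 0 X) fun m _ => n0 m)
      (by positivity))
    rw [mul_sum]
    refine sum_le_sum fun m hm => ?_
    have m0 : (0 : ℝ) < m := by exact_mod_cast (mem_Ioc.1 hm).1
    rw [← mul_assoc]
    refine le_mul_of_one_le_left (io_nonneg _) ?_
    rw [Real.rpow_neg m0.le, ← div_eq_mul_inv, one_le_div (by positivity)]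
    exact Real.rpow_le_rpow m0.le (by exact_mod_cast (mem_Ioc.1 hm).2) b0
  have a4 : 0 ≤ (2 * (pt x 0 : ℝ) + 1) * (X : ℝ) ^ b := by positivity
  push_cast at a2
  nlinarith

theorem fin_up {c d b : ℝ} (h : d ≤ c) (c0 : 0 ≤ c) (b0 : b ≤ 0)
    (hs : Summable fun m : ℕ => (m : ℝ) ^ (-b) * io (Bd d m x)) : (Bg x c).Finite := by
  obtain ⟨N, hN⟩ := eventually_atTop.1 (hs.tendsto_atTop_zero.eventually (gt_mem_nhds one_pos))
  refine (fin_le hx (Bg x c) (N + 2 * pt x 0)).subset fun n hn => ⟨hn, ?_⟩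
  by_contra h0
  have a1 := hN (pt x n) (by omega)
  rw [io_of (bd_of hx h c0 hn (by omega)), mul_one] at a1
  exact a1.not_ge (Real.one_le_rpow (by exact_mod_cast (by omega : 1 ≤ pt x n)) (by linarith))

end

variable {Ω : Type*} [MeasurableSpace Ω]

theorem Md.Good.main {M : Md Ω} {Q m0 : ℕ} (g : M.Good Q m0) :
    ∀ᵐ ω ∂M.μ, {m | M.cfg ω m = true}.Infinite ∧ ∀ c : ℝ, 0 ≤ c →
      (2 / 3 < c → (Bg (M.cfg ω) c).Finite) ∧ (c < 2 / 3 → ∀ ε : ℝ, 0 < ε → ∀ᶠ X : ℕ in atTop,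
        (X : ℝ) ^ (2 / 3 - c - ε) ≤ {n ∈ Bg (M.cfg ω) c | pt (M.cfg ω) n ≤ X}.ncard ∧
        {n ∈ Bg (M.cfg ω) c | pt (M.cfg ω) n ≤ X}.ncard ≤ (X : ℝ) ^ (2 / 3 - c + ε)) := by
  have h1 : ∀ᵐ ω ∂M.μ, ∀ a b : ℚ, (0 : ℝ) ≤ a → (a : ℝ) < 2 / 3 → (0 : ℝ) < b →
      ∀ᶠ X : ℕ in atTop, (X : ℝ) ^ (2 / 3 - a - b : ℝ) ≤
        ∑ m ∈ range (X + 1), io (Gd a m (M.cfg ω)) := by
    simp only [ae_all_iff]
    exact fun a b h1 h2 h3 => g.lowC h1 h2 h3
  have h2 : ∀ᵐ ω ∂M.μ, ∀ a b : ℚ, (0 : ℝ) < b → Summable fun m : ℕ =>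
      (m : ℝ) ^ (-(2 / 3 - a + b : ℝ)) * io (Bd a m (M.cfg ω)) := by
    simp only [ae_all_iff]
    exact fun a b h => g.upB a h
  filter_upwards [h1, h2] with ω h1 h2
  have hx := inf_of (by norm_num) (h1 0 (1 / 3) (by norm_num) (by norm_num) (by norm_num))
  refine ⟨hx, fun c c0 => ⟨fun hc => ?_, fun hc ε e0 => Eventually.and ?_ ?_⟩⟩
  · obtain ⟨a, a1, a2⟩ := exists_rat_btwn hc
    obtain ⟨b, b1, b2⟩ := exists_rat_btwn (sub_pos.2 a1)
    exact fin_up hx a2.le c0 (by linarith) (h2 a b b1)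
  · obtain ⟨a, a1, a2⟩ := exists_rat_btwn (lt_min (show c < c + ε / 2 by linarith) hc)
    rw [lt_min_iff] at a2
    obtain ⟨b, b1, b2⟩ := exists_rat_btwn (lt_min (half_pos e0) (sub_pos.2 a2.2))
    rw [lt_min_iff] at b2
    filter_upwards [h1 a b (by linarith) a2.2 b1, ev_half (a := 2 / 3 - c - ε)
      (b := 2 / 3 - a - b) 1 (by linarith) (by linarith)] with X x1 x2
    linarith [cnt_low hx a1.le X]
  · obtain ⟨a, a1, a2⟩ := exists_rat_btwn (show c - ε / 3 < c by linarith)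
    obtain ⟨b, b1, b2⟩ := exists_rat_btwn (show 0 < ε / 3 by linarith)
    obtain ⟨C, hC⟩ := cnt_up hx a2.le c0 (by linarith) (h2 a b b1)
    filter_upwards [ev_half (a := 2 / 3 - a + b) (b := 2 / 3 - c + ε) C (by linarith)
      (by linarith)] with X x1
    exact (hC X).trans x1

theorem ex_model (P : Measure Ω) [IsProbabilityMeasure P] (A : ℕ → Set Ω)
    (hA : ∀ m, MeasurableSet (A m)) (hI : iIndepSet A P) {Q : ℕ} (hQ : 0 < Q)
    (hp : ∀ᶠ m in atTop, P.real (A m) = ch Q m / Real.log m) :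
    ∃ (M : Md Ω) (m0 : ℕ), M.Good Q m0 ∧ M.μ = P ∧ ∀ ω m, M.cfg ω m = true ↔ ω ∈ A m := by
  have e : ∀ m ω, decide ((A m).indicator (fun _ => (1 : ℕ)) ω = 1) = true ↔ ω ∈ A m := by
    intro m ω
    by_cases h : ω ∈ A m <;> simp [h]
  obtain ⟨m0, h⟩ := eventually_atTop.1 (hp.and ((eventually_ge_atTop 3).and
    ((Real.tendsto_log_atTop.comp tendsto_natCast_atTop_atTop).eventually_ge_atTop (2 * ka Q))))
  refine ⟨⟨P, inferInstance, fun m ω => decide ((A m).indicator (fun _ => (1 : ℕ)) ω = 1),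
    fun m => P.real (A m), fun m => measurable_to_bool ?_,
    hI.iIndepFun_indicator.comp (fun _ (t : ℕ) => decide (t = 1)) fun _ => .of_discrete,
    fun m => by simp only [e]; rfl⟩, m0,
    ⟨hQ, (h m0 le_rfl).2.1, (h m0 le_rfl).2.2, fun m hm => (h m hm).1⟩, rfl, fun ω m => e m ω⟩
  convert hA m using 1
  ext ω
  exact e m ω

end Pool.Agent.P.MP_0a88e3_nt
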