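import Pool.Agent.P.MP_0a88e3_nt.Far

set_option autoImplicit false

open Finset

namespace Pool.Agent.P.MP_0a88e3_nt

/-- A point at `m`, a gap of length `G` after it, and the walk survives `y` steps. -/
def Ev (m G g y : ℕ) (x : Cfg) : Prop := x m = true ∧ Gap m G x ∧ I (m - g) (m + G) g y x

theorem Ev_dep {m G g y : ℕ} (h : y + g ≤ m) :
    DependsOn (Ev m G g y) (Set.Icc (m - g - y) (m + G + y)) := by
  intro x z e
  unfold Ev
  rw [e m ⟨by omega, by omega⟩, Gap_dep m G fun i hi => e i ⟨by have := hi.1; omega,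
    by have := hi.2; omega⟩, I_dep (l := m - g) (r := m + G) (k := y) g (by omega) fun i hi => e i
    (by simp only [St, Set.mem_ofPred_eq, Set.mem_Icc] at *; omega)]

theorem Ev_loc {m G g y : ℕ} (h : y + g ≤ m) : Loc (Ev m G g y) := ⟨_, Set.finite_Icc _ _, Ev_dep h⟩

theorem Ev.mono {m G g y z : ℕ} {x : Cfg} (h : Ev m G g y x) (hz : z ≤ y) : Ev m G g z x :=
  ⟨h.1, h.2.1, fun j hj => h.2.2 j (hj.trans hz)⟩

theorem io_and (p q : Prop) : io (p ∧ q) = io p * io q := by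
  by_cases h : p <;> by_cases k : q <;> simp [io, h, k]

theorem io_mono {p q : Prop} (h : p → q) : io p ≤ io q := by
  by_cases k : p
  exacts [by rw [io_of k, io_of (h k)], by rw [io_not k]; exact io_nonneg q]

theorem card_near (S : Finset ℕ) (m D : ℕ) :
    ∑ k ∈ S, io (k ≤ m + D ∧ m ≤ k + D) ≤ 2 * D + 1 := by
  have e : ∀ k, io (k ≤ m + D ∧ m ≤ k + D) = if k ≤ m + D ∧ m ≤ k + D then 1 else 0 := fun k => by
    split_ifs with h
    exacts [io_of h, io_not h]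
  simp only [e]
  rw [← sum_filter, sum_const, nsmul_eq_mul, mul_one]
  have := card_le_card (s := {k ∈ S | k ≤ m + D ∧ m ≤ k + D}) (t := Icc (m - D) (m + D))
    fun k hk => by simp at hk ⊢; omega
  rw [Nat.card_Icc] at this
  exact_mod_cast (by omega : #{k ∈ S | k ≤ m + D ∧ m ≤ k + D} ≤ 2 * D + 1)

variable {Ω : Type*} [MeasurableSpace Ω] (M : Md Ω)

namespace Md

theorem π_eq (l r : ℕ) (h : ℤ) (k : ℕ) : M.π l r h k = M.E fun x => io (I l r h k x) := rfl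

theorem π_nonneg (l r : ℕ) (h : ℤ) (k : ℕ) : 0 ≤ M.π l r h k := M.E_nonneg fun _ => io_nonneg _

theorem π_le {l r k : ℕ} (h : ℤ) (hk : k ≤ l) : M.π l r h k ≤ 1 := by
  rw [← M.E_const 1]
  exact M.E_mono (Φ_loc h _ hk) (Loc.const _) fun _ => io_le _

theorem E_Ev {m G g y : ℕ} (h : y + g ≤ m) : M.E (fun x => io (Ev m G g y x)) =
    M.a m * M.gp m G * M.π (m - g) (m + G) g y := by
  have d1 : DependsOn (fun x : Cfg => io (x m = true)) {m} := fun x z e => by simp only [e m rfl]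
  have d2 : DependsOn (fun x => io (Gap m G x)) (Set.Ioc m (m + G)) :=
    fun x z e => by simp only [Gap_dep m G e]
  have d3 : DependsOn (fun x => io (I (m - g) (m + G) g y x)) (St (m - g) (m + G) y) :=
    fun x z e => by simp only [I_dep (g : ℤ) (show y ≤ m - g by omega) e]
  simp only [Ev, io_and]
  rw [M.E_mul (Set.finite_singleton m) ((Set.finite_Ioc m (m + G)).union (St_fin _ _ _)) d1
    (dep2 (d2.mono Set.subset_union_left) (d3.mono Set.subset_union_right) (· * ·))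
    (by simp [St]), M.E_mul (Set.finite_Ioc m (m + G)) (St_fin _ _ _) d2 d3
    (Set.disjoint_left.2 fun i h1 h2 => by
      simp only [St, Set.mem_ofPred_eq, Set.mem_Ioc] at *; omega), M.E_gap, ← M.E_bit, mul_assoc]
  congr 2
  funext x
  cases x m <;> simp [io]

theorem var_eq {S : Finset ℕ} {Z : ℕ → Cfg → ℝ} (hZ : ∀ m ∈ S, Loc (Z m)) :
    M.E (fun x => (∑ m ∈ S, Z m x - ∑ m ∈ S, M.E (Z m)) ^ 2) =
      ∑ m ∈ S, ∑ k ∈ S, (M.E (fun x => Z m x * Z k x) - M.E (Z m) * M.E (Z k)) := by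
  set μ := ∑ m ∈ S, M.E (Z m) with hμ
  have l1 := Loc.sum S hZ
  have l2 : ∀ m ∈ S, Loc fun x => ∑ k ∈ S, Z m x * Z k x := fun m hm =>
    Loc.sum S fun k hk => (hZ m hm).mul (hZ k hk)
  have e : (fun x => (∑ m ∈ S, Z m x - μ) ^ 2) = fun x =>
      ∑ m ∈ S, ∑ k ∈ S, Z m x * Z k x + ((-2 * μ) * ∑ m ∈ S, Z m x + μ ^ 2) := by
    funext x; rw [← sum_mul_sum]; ring
  rw [e, M.E_add (Loc.sum S l2) ((l1.cmul _).add (Loc.const _)), M.E_add (l1.cmul _) (Loc.const _),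
    M.E_cmul, M.E_const, M.E_sum S hZ, M.E_sum S l2,
    sum_congr rfl fun m hm => M.E_sum S fun k hk => (hZ m hm).mul (hZ k hk)]
  simp only [sum_sub_distrib]
  rw [← sum_mul_sum, ← hμ]
  ring

/-- Normalised indicator. -/
noncomputable def Z (G : ℕ → ℕ) (y m : ℕ) (x : Cfg) : ℝ :=
  (M.a m * M.gp m (G m))⁻¹ * io (Ev m (G m) 0 y x)

theorem gp_nonneg (m G : ℕ) : 0 ≤ M.gp m G := prod_nonneg fun _ _ => sub_nonneg.2 (M.a_le _)

theorem qi_nonneg (m G : ℕ) : 0 ≤ (M.a m * M.gp m G)⁻¹ :=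
  inv_nonneg.2 (mul_nonneg (M.a_nonneg _) (M.gp_nonneg _ _))

theorem Z_nonneg (G : ℕ → ℕ) (y m : ℕ) (x : Cfg) : 0 ≤ M.Z G y m x :=
  mul_nonneg (M.qi_nonneg _ _) (io_nonneg _)

theorem Z_dep (G : ℕ → ℕ) {y m : ℕ} (h : y ≤ m) :
    DependsOn (M.Z G y m) (Set.Icc (m - y) (m + G m + y)) := fun x z e => by
  unfold Z; rw [Ev_dep (g := 0) h e]

theorem Z_loc (G : ℕ → ℕ) {y m : ℕ} (h : y ≤ m) : Loc (M.Z G y m) :=
  ⟨_, Set.finite_Icc _ _, M.Z_dep G h⟩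

theorem E_Z (G : ℕ → ℕ) {y m : ℕ} (h : y ≤ m) (hq : 0 < M.a m * M.gp m (G m)) :
    M.E (M.Z G y m) = M.π m (m + G m) 0 y := by
  unfold Z
  rw [M.E_cmul, M.E_Ev (g := 0) h, ← mul_assoc, inv_mul_cancel₀ hq.ne', one_mul]
  rfl

theorem pair (G : ℕ → ℕ) {y Y m k : ℕ} (hy : y ≤ Y) (h : Y ≤ m) (hk : m + G m + 2 * y < k)
    (q1 : 0 < M.a m * M.gp m (G m)) (q2 : 0 < M.a k * M.gp k (G k)) :
    M.E (fun x => M.Z G Y m x * M.Z G Y k x) ≤ M.π m (m + G m) 0 y * M.π k (k + G k) 0 y := by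
  have a1 : y ≤ m := by omega
  have a2 : y ≤ k := by omega
  rw [← M.E_Z G a1 q1, ← M.E_Z G a2 q2, ← M.E_mul (Set.finite_Icc _ _) (Set.finite_Icc _ _)
    (M.Z_dep G a1) (M.Z_dep G a2) (Set.disjoint_left.2 fun i h1 h2 => by
      simp only [Set.mem_Icc] at *; omega)]
  have mo : ∀ j x, M.Z G Y j x ≤ M.Z G y j x := fun j x =>
    mul_le_mul_of_nonneg_left (io_mono fun H => H.mono hy) (M.qi_nonneg _ _)
  exact M.E_mono ((M.Z_loc G h).mul (M.Z_loc G (by omega))) ((M.Z_loc G a1).mul (M.Z_loc G a2))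
    fun x => mul_le_mul (mo _ x) (mo _ x) (M.Z_nonneg _ _ _ _) (M.Z_nonneg _ _ _ _)

theorem cov_le (G : ℕ → ℕ) {y z Y m k : ℕ} {b c : ℝ} (h1 : y ≤ z) (h2 : z ≤ Y) (h : Y ≤ m)
    (hG : G m ≤ y) (hk : m < k) (q1 : 0 < M.a m * M.gp m (G m)) (q2 : 0 < M.a k * M.gp k (G k))
    (hb : ∀ j ∈ ({m, k} : Set ℕ), M.π j (j + G j) 0 y ≤ b)
    (hc : ∀ j ∈ ({m, k} : Set ℕ), M.π j (j + G j) 0 z ≤ c) :
    M.E (fun x => M.Z G Y m x * M.Z G Y k x) - M.E (M.Z G Y m) * M.E (M.Z G Y k) ≤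
      io (k ≤ m + 3 * y) + b ^ 2 * io (k ≤ m + 3 * z) + c ^ 2 * io (k ≤ m + 3 * Y) := by
  have p0 := mul_nonneg (M.E_nonneg (M.Z_nonneg G Y m)) (M.E_nonneg (M.Z_nonneg G Y k))
  have p1 := io_nonneg (k ≤ m + 3 * y)
  have p2 := mul_nonneg (sq_nonneg b) (io_nonneg (k ≤ m + 3 * z))
  have p3 := mul_nonneg (sq_nonneg c) (io_nonneg (k ≤ m + 3 * Y))
  have sq : ∀ {w : ℕ} {d : ℝ}, (∀ j ∈ ({m, k} : Set ℕ), M.π j (j + G j) 0 w ≤ d) →
      M.π m (m + G m) 0 w * M.π k (k + G k) 0 w ≤ d ^ 2 := fun H => by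
    rw [sq]
    exact mul_le_mul (H m (by simp)) (H k (by simp)) (M.π_nonneg _ _ _ _)
      ((M.π_nonneg _ _ _ _).trans (H m (by simp)))
  by_cases c0 : k ≤ m + G m
  · have : (fun x => M.Z G Y m x * M.Z G Y k x) = fun _ => 0 := by
      funext x
      by_cases H : Ev m (G m) 0 Y x
      · have : ¬ Ev k (G k) 0 Y x := fun K => by simpa [K.1] using H.2.1 k hk c0
        simp [Z, io_not this]
      · simp [Z, io_not H]
    rw [this, M.E_const]; linarith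
  by_cases c1 : k ≤ m + 3 * y
  · have := (M.pair G (Nat.zero_le Y) h (by omega) q1 q2).trans
      (sq (d := 1) fun j _ => M.π_le 0 (Nat.zero_le j))
    rw [io_of c1]; linarith
  by_cases c2 : k ≤ m + 3 * z
  · have := (M.pair G (h1.trans h2) h (by omega) q1 q2).trans (sq hb)
    rw [io_of c2]; linarith
  by_cases c3 : k ≤ m + 3 * Y
  · have := (M.pair G h2 h (by omega) q1 q2).trans (sq hc)
    rw [io_of c3]; linarith
  · have := M.pair G le_rfl h (by omega) q1 q2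
    rw [← M.E_Z G h q1, ← M.E_Z G (by omega) q2] at this
    linarith

theorem var_le (G : ℕ → ℕ) (S : Finset ℕ) {y z Y : ℕ} {b c q : ℝ} (h1 : y ≤ z) (h2 : z ≤ Y)
    (h : ∀ m ∈ S, Y ≤ m) (hG : ∀ m ∈ S, G m ≤ y) (q0 : 0 < q)
    (hq : ∀ m ∈ S, q ≤ M.a m * M.gp m (G m)) (hb : ∀ m ∈ S, M.π m (m + G m) 0 y ≤ b)
    (hc : ∀ m ∈ S, M.π m (m + G m) 0 z ≤ c) :
    M.E (fun x => (∑ m ∈ S, M.Z G Y m x - ∑ m ∈ S, M.E (M.Z G Y m)) ^ 2) ≤
      q⁻¹ * ∑ m ∈ S, M.E (M.Z G Y m) +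
        #S * (6 * y + 1 + b ^ 2 * (6 * z + 1) + c ^ 2 * (6 * Y + 1)) := by
  rw [M.var_eq fun m hm => M.Z_loc G (h m hm), mul_sum, ← nsmul_eq_mul, ← sum_const,
    ← sum_add_distrib]
  refine sum_le_sum fun m hm => ?_
  have q1 : ∀ m ∈ S, 0 < M.a m * M.gp m (G m) := fun m hm => q0.trans_le (hq m hm)
  refine le_trans (sum_le_sum (g := fun k => (if m = k then q⁻¹ * M.E (M.Z G Y m) else 0) +
    (io (k ≤ m + 3 * y ∧ m ≤ k + 3 * y) + b ^ 2 * io (k ≤ m + 3 * z ∧ m ≤ k + 3 * z) +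
      c ^ 2 * io (k ≤ m + 3 * Y ∧ m ≤ k + 3 * Y))) fun k hk => ?_) ?_
  · rcases lt_trichotomy m k with H | rfl | H
    · have e : ∀ w, (k ≤ m + w ∧ m ≤ k + w) = (k ≤ m + w) := fun w => propext (by omega)
      rw [if_neg H.ne, zero_add, e, e, e]
      exact M.cov_le G h1 h2 (h m hm) (hG m hm) H (q1 m hm) (q1 k hk)
        (by rintro j (rfl | rfl) <;> exact hb _ ‹_›) (by rintro j (rfl | rfl) <;> exact hc _ ‹_›)
    · have p0 := mul_self_nonneg (M.E (M.Z G Y m))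
      have p1 := io_nonneg (m ≤ m + 3 * y ∧ m ≤ m + 3 * y)
      have p2 := mul_nonneg (sq_nonneg b) (io_nonneg (m ≤ m + 3 * z ∧ m ≤ m + 3 * z))
      have p3 := mul_nonneg (sq_nonneg c) (io_nonneg (m ≤ m + 3 * Y ∧ m ≤ m + 3 * Y))
      have : M.E (fun x => M.Z G Y m x * M.Z G Y m x) ≤ q⁻¹ * M.E (M.Z G Y m) := by
        rw [← M.E_cmul]
        refine M.E_mono ((M.Z_loc G (h m hm)).mul (M.Z_loc G (h m hm)))
          ((M.Z_loc G (h m hm)).cmul _) fun x => mul_le_mul_of_nonneg_right ?_ (M.Z_nonneg _ _ _ _)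
        exact (mul_le_of_le_one_right (M.qi_nonneg _ _) (io_le _)).trans (inv_anti₀ q0 (hq m hm))
      rw [if_pos rfl]; linarith
    · have e : ∀ w, (k ≤ m + w ∧ m ≤ k + w) = (m ≤ k + w) := fun w => propext (by omega)
      rw [if_neg H.ne', zero_add, e, e, e, mul_comm (M.E _)]
      simp only [mul_comm (M.Z G Y m _)]
      exact M.cov_le G h1 h2 (h k hk) (hG k hk) H (q1 k hk) (q1 m hm)
        (by rintro j (rfl | rfl) <;> exact hb _ ‹_›) (by rintro j (rfl | rfl) <;> exact hc _ ‹_›)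
  · rw [sum_add_distrib, sum_ite_eq, if_pos hm, sum_add_distrib, sum_add_distrib, ← mul_sum,
      ← mul_sum]
    have a1 := card_near S m (3 * y)
    have a2 := mul_le_mul_of_nonneg_left (card_near S m (3 * z)) (sq_nonneg b)
    have a3 := mul_le_mul_of_nonneg_left (card_near S m (3 * Y)) (sq_nonneg c)
    push_cast at a1 a2 a3
    linarith

end Md

end Pool.Agent.P.MP_0a88e3_nt
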