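import Pool.Agent.P.MP_0a88e3_nt.Low3

set_option autoImplicit false

open Finset Filter MeasureTheory

namespace Pool.Agent.P.MP_0a88e3_nt

/-- The events forced by a large minimal symmetric sum. -/
def Bd (c : ℝ) (m : ℕ) (x : Cfg) : Prop :=
  ∀ g y, 2 * (y + g) ≤ m → Ev m ⌊c * Real.log m ^ 2⌋₊ g y x

variable {Ω : Type*} [MeasurableSpace Ω] {M : Md Ω} {Q m0 : ℕ}

namespace Md

theorem Good.gp_up (g : M.Good Q m0) (c : ℝ) {m : ℕ} (h : m0 ≤ m)
    (hG : ⌊c * Real.log m ^ 2⌋₊ ≤ m) :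
    M.gp m ⌊c * Real.log m ^ 2⌋₊ ≤ Real.exp (|c| + 1 + Q) * (m : ℝ) ^ (-c) := by
  have p := g.cpos h
  have l2 := g.two_le h
  refine (g.gp_le h _ (B := 2 * m) (by rw [two_mul]; gcongr)).trans ?_
  rw [Real.rpow_def_of_pos p, ← Real.exp_add, Real.exp_le_exp, neg_le, Real.log_mul two_ne_zero p.ne']
  have a0 := Real.log_two_gt_d9
  have a1 := Real.log_two_lt_d9
  rw [le_div_iff₀ (by linarith)]
  have a2 := Nat.lt_floor_add_one (c * Real.log m ^ 2)
  have a3 := mul_le_mul_of_nonneg_right (le_abs_self c) (show 0 ≤ Real.log m * Real.log 2 by positivity)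
  have a4 := mul_nonneg (mul_nonneg (abs_nonneg c) (show 0 ≤ Real.log m by linarith))
    (show 0 ≤ 1 - Real.log 2 by linarith)
  have a5 := mul_nonneg (abs_nonneg c) (show 0 ≤ Real.log 2 by linarith)
  have a6 := mul_nonneg (show 0 ≤ 1 + (Q : ℝ) by positivity)
    (show 0 ≤ Real.log 2 + Real.log m - 1 by linarith)
  nlinarith

theorem Good.upA (g : M.Good Q m0) (c : ℝ) {ε : ℝ} (e0 : 0 < ε) : ∀ᶠ m : ℕ in atTop, ∃ k y,
    2 * (y + k) ≤ m ∧ M.E (fun x => io (Ev m ⌊c * Real.log m ^ 2⌋₊ k y x)) ≤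
      (m : ℝ) ^ (-c - 1 / 3 + ε) := by
  obtain ⟨s, hs⟩ := exists_nat_ge (1 / ε)
  have se : 1 ≤ s * ε := by rwa [← div_le_iff₀ e0]
  obtain ⟨K, hK⟩ : ∃ K, K = 3 * s + 4 := ⟨_, rfl⟩
  have K0 : K ≠ 0 := by omega
  have Kr : (K : ℝ) = 3 * s + 4 := by rw [hK]; push_cast; ring
  have s0 : (0 : ℝ) ≤ s := s.cast_nonneg
  have k1 : 1 / 3 - ε / 2 ≤ s / (K : ℝ) := by rw [le_div_iff₀ (by linarith), Kr]; nlinarith
  have tu := (tendsto_pow_atTop_atTop_of_one_lt (show 1 < 2 by norm_num)).comp (sc_tend K0)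
  filter_upwards [tu.eventually (ev_pow (|c| + 1 + Q) (2 * K) 2), tu.eventually_ge_atTop (m0 + 24),
    ev_const (Real.exp (|c| + 1 + Q) * (2 * Q * 2 ^ s)) (half_pos e0), eventually_ge_atTop 1]
    with m h1 h2 h3 h4
  have a1 := sc_le K (X := m) (by omega)
  have a2 := sc_lt K0 m
  simp only [Function.comp] at h1 h2
  generalize 2 ^ Nat.log (2 ^ K) m = u at *
  have u0 : 0 < u := by omega
  have a3 : 2 ^ K * u ^ K ≤ u ^ (2 * K) := by
    rw [two_mul, pow_add]; exact Nat.mul_le_mul_right _ (Nat.pow_le_pow_left (by omega) K)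
  have a4 := pw (show 4 ≤ u by omega) u0 (show 2 * s + 2 + s + 1 < K by omega)
  have a5 : u ≤ u ^ (2 * s + 2) := Nat.le_self_pow (by omega) u
  have a6 := Nat.pow_le_pow_right u0 (show 2 * s + 2 ≤ 2 * s + 2 + s + 1 by omega)
  have m1 : (1 : ℝ) ≤ m := by exact_mod_cast h4
  have l1 : Real.log (2 * m) ≤ Real.log (5 * ((u ^ (2 * K) : ℕ) : ℝ)) :=
    Real.log_le_log (by linarith) (by exact_mod_cast (by omega : 2 * m ≤ 5 * u ^ (2 * K)))
  have l2 : Real.log m ≤ Real.log (2 * m) := Real.log_le_log (by linarith) (by linarith)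
  have l3 := g.two_le (m := m) (by omega)
  generalize Real.log (5 * ((u ^ (2 * K) : ℕ) : ℝ)) = L at *
  have l4 : L ≤ L ^ 2 := by nlinarith
  have Q0 : (0 : ℝ) ≤ Q := Q.cast_nonneg
  have c1 := mul_nonneg (abs_nonneg c) (sq_nonneg L)
  have c2 := mul_nonneg Q0 (show 0 ≤ L ^ 2 - 1 by linarith)
  have G1 : ⌊c * Real.log m ^ 2⌋₊ + Q ≤ u := by
    have b1 : c * Real.log m ^ 2 ≤ |c| * L ^ 2 :=
      mul_le_mul (le_abs_self c) (pow_le_pow_left₀ (by linarith) (by linarith) 2) (sq_nonneg _)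
        (abs_nonneg c)
    have b2 := (Nat.cast_le (α := ℝ)).2 (Nat.floor_le_floor b1)
    have b3 := Nat.floor_le c1
    exact_mod_cast (by linarith : (⌊c * Real.log m ^ 2⌋₊ : ℝ) + Q ≤ u)
  have b1 := g.gp_up c (m := m) (by omega) (by omega)
  generalize ⌊c * Real.log m ^ 2⌋₊ = G at *
  have k2 := Nat.mod_lt (m + (m + G)) g.pos
  have k3 := Nat.dvd_sub_mod (n := Q) (m + (m + G))
  generalize (m + (m + G)) % Q = k at *
  refine ⟨k, u ^ (2 * s + 2), by omega, ?_⟩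
  have b2 := g.persP (h := k) (u := u) (a := 2 * s + 2) (b := s) (l := m - k) (r := m + G)
    (by omega) (by omega) (by omega) (by omega) (le_trans (Real.log_le_log (y := 2 * m)
      (by exact_mod_cast (by omega : 0 < 2 * (m - k)))
      (by exact_mod_cast (by omega : 2 * (m - k) ≤ 2 * m))) (by linarith)) (by omega) (by omega)
    (by omega) (by omega) (by rwa [show m - k + (m + G) = m + (m + G) - k by omega])
  have b3 : (m : ℝ) ^ (s / (K : ℝ)) ≤ 2 ^ s * u ^ s := by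
    have : (m : ℝ) ≤ (2 * u) ^ K := by rw [mul_pow]; exact_mod_cast a2.le
    refine (Real.rpow_le_rpow (by linarith) this (by positivity)).trans (le_of_eq ?_)
    rw [← Real.rpow_natCast, ← Real.rpow_mul (by positivity), mul_div_cancel₀ _ (by linarith),
      Real.rpow_natCast, mul_pow]
  have b4 : 2 * (((k : ℤ) : ℝ) + 1) / (u : ℝ) ^ s ≤ 2 * Q * 2 ^ s * (m : ℝ) ^ (-(s / (K : ℝ))) := by
    have : (k : ℝ) + 1 ≤ Q := by exact_mod_cast k2
    rw [Real.rpow_neg (by linarith), ← div_eq_mul_inv,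
      div_le_div_iff₀ (by positivity) (by positivity), mul_assoc (2 * (Q : ℝ))]
    push_cast
    exact mul_le_mul (by linarith) b3 (by positivity) (by positivity)
  rw [M.E_Ev (by omega)]
  calc _ ≤ 1 * (Real.exp (|c| + 1 + Q) * (m : ℝ) ^ (-c)) *
        (2 * Q * 2 ^ s * (m : ℝ) ^ (-(s / (K : ℝ)))) :=
        mul_le_mul (mul_le_mul (M.a_le m) b1 (M.gp_nonneg _ _) zero_le_one) (b2.trans b4)
          (M.π_nonneg _ _ _ _) (by positivity)
    _ = Real.exp (|c| + 1 + Q) * (2 * Q * 2 ^ s) * ((m : ℝ) ^ (-c) * m ^ (-(s / (K : ℝ)))) := by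
        ring
    _ ≤ m ^ (ε / 2) * ((m : ℝ) ^ (-c) * m ^ (-(s / (K : ℝ)))) := by gcongr
    _ ≤ _ := by
        rw [← Real.rpow_add (by linarith), ← Real.rpow_add (by linarith)]
        exact Real.rpow_le_rpow_of_exponent_le m1 (by linarith)

theorem Good.upB (g : M.Good Q m0) (c : ℝ) {ε : ℝ} (e0 : 0 < ε) : ∀ᵐ ω ∂M.μ,
    Summable fun m : ℕ => (m : ℝ) ^ (-(2 / 3 - c + ε)) * io (Bd c m (M.cfg ω)) := by
  obtain ⟨t, h⟩ := eventually_atTop.1 ((g.upA c (half_pos e0)).and (eventually_gt_atTop 0))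
  choose k y h1 h2 using fun m => (h (m + t) le_add_self).1
  have := M.ae_summable (f := fun m x => ((m + t : ℕ) : ℝ) ^ (-(2 / 3 - c + ε)) *
    io (Ev (m + t) ⌊c * Real.log (m + t : ℕ) ^ 2⌋₊ (k m) (y m) x))
    (fun m => ((Ev_loc (by have := h1 m; omega)).comp io).cmul _)
    (fun m x => mul_nonneg (by positivity) (io_nonneg _)) (by
      refine Summable.of_nonneg_of_le
        (fun m => M.E_nonneg fun x => mul_nonneg (by positivity) (io_nonneg _)) (fun m => ?_)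
        ((summable_nat_add_iff t).2 (Real.summable_nat_rpow.2 (show -1 - ε / 2 < -1 by linarith)))
      rw [M.E_cmul]
      refine (mul_le_mul_of_nonneg_left (h2 m) (by positivity)).trans (le_of_eq ?_)
      rw [← Real.rpow_add (Nat.cast_pos.2 (h (m + t) le_add_self).2)]
      congr 1; ring)
  filter_upwards [this] with ω hω
  exact (summable_nat_add_iff t).1 (Summable.of_nonneg_of_le
    (fun m => mul_nonneg (by positivity) (io_nonneg _))
    (fun m => mul_le_mul_of_nonneg_left (io_mono fun H => H _ _ (h1 m)) (by positivity)) hω)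

end Md

end Pool.Agent.P.MP_0a88e3_nt
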