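import Pool.Agent.P.MP_0a88e3_nt.Ex

set_option autoImplicit false

open Finset

namespace Pool.Agent.P.MP_0a88e3_nt

def bt (b : Bool) : ℤ := if b then 1 else 0

/-- Points in `[l - k, l)` minus points in `(r, r + k]`. -/
def W (l r k : ℕ) (x : Cfg) : ℤ := ∑ j ∈ range k, (bt (x (l - 1 - j)) - bt (x (r + 1 + j)))

/-- The walk started at height `h` stays nonnegative up to time `k`. -/
def I (l r : ℕ) (h : ℤ) (k : ℕ) (x : Cfg) : Prop := ∀ j ≤ k, 0 ≤ h + W l r j x

def St (l r k : ℕ) : Set ℕ := {i | (l ≤ i + k ∧ i < l) ∨ (r < i ∧ i ≤ r + k)}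

theorem St_fin (l r k : ℕ) : (St l r k).Finite :=
  (Set.finite_Iic (l + r + k)).subset fun i hi => by
    simp only [St, Set.mem_ofPred_eq, Set.mem_Iic] at *; omega

theorem W_succ (l r k : ℕ) (x : Cfg) :
    W l r (k + 1) x = W l r k x + (bt (x (l - 1 - k)) - bt (x (r + 1 + k))) := sum_range_succ _ _

theorem W_dep {l r j k : ℕ} (hk : k ≤ l) (hj : j ≤ k) : DependsOn (W l r j) (St l r k) := by
  intro x y e
  refine sum_congr rfl fun i hi => ?_
  rw [mem_range] at hi
  rw [e (l - 1 - i) (Or.inl (by omega)), e (r + 1 + i) (Or.inr (by omega))]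

theorem I_dep {l r k : ℕ} (h : ℤ) (hk : k ≤ l) : DependsOn (I l r h k) (St l r k) := by
  intro x y e
  exact forall_congr fun j => propext (imp_congr_right fun hj => by rw [W_dep hk hj e])

theorem I_succ {l r k : ℕ} {h : ℤ} {x : Cfg} :
    I l r h (k + 1) x ↔ I l r h k x ∧ 0 ≤ h + W l r (k + 1) x :=
  ⟨fun H => ⟨fun j hj => H j (by omega), H _ le_rfl⟩, fun H j hj => by
    rcases Nat.of_le_succ hj with h1 | rfl
    exacts [H.1 j h1, H.2]⟩

open Classical in
noncomputable def Φ (l r : ℕ) (h : ℤ) (k : ℕ) (V : ℤ → ℝ) (x : Cfg) : ℝ :=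
  if I l r h k x then V (h + W l r k x) else 0

theorem Φ_dep {l r k : ℕ} (h : ℤ) (V : ℤ → ℝ) (hk : k ≤ l) :
    DependsOn (Φ l r h k V) (St l r k) := by
  intro x y e
  classical
  have := I_dep h hk e
  unfold Φ
  rw [W_dep hk le_rfl e]
  exact if_congr (by rw [this]) rfl rfl

theorem Φ_loc {l r k : ℕ} (h : ℤ) (V : ℤ → ℝ) (hk : k ≤ l) : Loc (Φ l r h k V) :=
  ⟨_, St_fin l r k, Φ_dep h V hk⟩

variable {Ω : Type*} [MeasurableSpace Ω] (M : Md Ω)

namespace Md

def pp (l r k : ℕ) : ℝ := M.a (l - 1 - k) * (1 - M.a (r + 1 + k))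
def rr (l r k : ℕ) : ℝ := M.a (r + 1 + k) * (1 - M.a (l - 1 - k))

theorem pp_nonneg (l r k : ℕ) : 0 ≤ M.pp l r k :=
  mul_nonneg (M.a_nonneg _) (sub_nonneg.2 (M.a_le _))

theorem rr_nonneg (l r k : ℕ) : 0 ≤ M.rr l r k :=
  mul_nonneg (M.a_nonneg _) (sub_nonneg.2 (M.a_le _))

theorem pr_le (l r k : ℕ) : 0 ≤ 1 - M.pp l r k - M.rr l r k := by
  have h1 := mul_nonneg (M.a_nonneg (l - 1 - k)) (M.a_nonneg (r + 1 + k))
  have h2 := mul_nonneg (sub_nonneg.2 (M.a_le (l - 1 - k))) (sub_nonneg.2 (M.a_le (r + 1 + k)))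
  unfold pp rr; nlinarith

theorem step {l r k : ℕ} (hk : k < l) (hl : l ≤ r) {F : Cfg → ℤ → ℝ}
    (hF : ∀ s, DependsOn (fun x => F x s) (St l r k)) :
    M.E (fun x => F x (bt (x (l - 1 - k)) - bt (x (r + 1 + k)))) =
      M.E fun x => (1 - M.pp l r k - M.rr l r k) * F x 0 + M.pp l r k * F x 1 +
        M.rr l r k * F x (-1) := by
  have h1 := M.E_cond (F := fun x b => F x (bt (x (l - 1 - k)) - bt b))
    ((St_fin l r k).insert (l - 1 - k)) (fun b x y e => by
      simp only [e _ (Set.mem_insert _ _)]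
      exact hF _ fun i hi => e i (Set.mem_insert_of_mem _ hi)) (m := r + 1 + k) (by
      simp only [St, Set.mem_insert_iff, Set.mem_ofPred_eq]; omega)
  have h2 := M.E_cond (F := fun x b => M.a (r + 1 + k) * F x (bt b - bt true) +
      (1 - M.a (r + 1 + k)) * F x (bt b - bt false)) (St_fin l r k)
    (fun b x y e => by simp only [hF _ e]) (m := l - 1 - k) (by
      simp only [St, Set.mem_ofPred_eq]; omega)
  rw [h1, h2]
  congr 1
  funext x
  simp only [bt, pp, rr]
  norm_num
  ring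

noncomputable def T (l r k : ℕ) (V : ℤ → ℝ) (w : ℤ) : ℝ :=
  (1 - M.pp l r k - M.rr l r k) * V w + M.pp l r k * V (w + 1) +
    M.rr l r k * if 1 ≤ w then V (w - 1) else 0

theorem Φ_step {l r k : ℕ} (hk : k < l) (hl : l ≤ r) (h : ℤ) (V : ℤ → ℝ) :
    M.E (Φ l r h (k + 1) V) = M.E (Φ l r h k (M.T l r k V)) := by
  classical
  have := M.step hk hl (F := fun x s =>
    if I l r h k x ∧ 0 ≤ h + (W l r k x + s) then V (h + (W l r k x + s)) else 0)
    (fun s x y e => by simp only [I_dep h hk.le e, W_dep hk.le le_rfl e])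
  convert this using 2
  · funext x
    simp only [Φ, I_succ, W_succ]
  · funext x
    by_cases hI : I l r h k x
    · have h0 := hI k le_rfl
      simp only [Φ, hI, T, if_true, true_and, add_zero, h0]
      rw [if_pos (show 0 ≤ h + (W l r k x + 1) by omega), add_assoc h]
      congr 2
      by_cases h1 : 1 ≤ h + W l r k x
      · rw [if_pos h1, if_pos (by omega)]; congr 1; ring
      · rw [if_neg h1, if_neg (by omega)]
    · simp [Φ, hI]

theorem Φ_mono {l r k : ℕ} (hk : k ≤ l) (h : ℤ) {V V' : ℤ → ℝ} {c : ℝ}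
    (H : ∀ w, 0 ≤ w → V w ≤ c * V' w) : M.E (Φ l r h k V) ≤ c * M.E (Φ l r h k V') := by
  rw [← M.E_cmul]
  refine M.E_mono (Φ_loc h V hk) ((Φ_loc h V' hk).cmul c) fun x => ?_
  unfold Φ
  split_ifs with hI
  exacts [H _ (hI k le_rfl), by simp]

theorem Φ_zero (l r : ℕ) {h : ℤ} (h0 : 0 ≤ h) (V : ℤ → ℝ) : M.E (Φ l r h 0 V) = V h := by
  rw [← M.E_const (V h)]
  congr 1
  funext x
  simp [Φ, I, W, h0]

/-- Probability that the walk survives. -/
noncomputable def π (l r : ℕ) (h : ℤ) (k : ℕ) : ℝ := M.E (Φ l r h k fun _ => 1)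

theorem pers_le {l r y : ℕ} {h : ℤ} {H : ℕ} (h0 : 0 ≤ h) (hH : 1 ≤ H) (hy : y ≤ l) (hl : l ≤ r)
    (hd : ∀ k < y, (M.pp l r k - M.rr l r k) * (2 * H) ≤ M.rr l r k)
    (hR : (H : ℝ) ^ 2 ≤ ∑ k ∈ range y, M.rr l r k) : M.π l r h y ≤ 2 * (h + 1) / H := by
  have H1 : (1 : ℝ) ≤ H := by exact_mod_cast hH
  have H2 : (0 : ℝ) < (H : ℝ) ^ 2 := by positivity
  set R : ℕ → ℝ := fun k => ∑ j ∈ range k, M.rr l r j with hRd
  have R0 : ∀ k, 0 ≤ R k := fun k => sum_nonneg fun j _ => M.rr_nonneg l r j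
  set V : ℕ → ℤ → ℝ := fun k w =>
    if w < H then min 1 ((((w : ℝ) + 1) * (2 * H - w) + R k) / H ^ 2) else 1 with hV
  have V1 : ∀ k w, V k w ≤ 1 := fun k w => by
    simp only [hV]; split_ifs; exacts [min_le_left _ _, le_rfl]
  have V2 : ∀ k (w : ℤ), w ≤ H → V k w ≤ (((w : ℝ) + 1) * (2 * H - w) + R k) / H ^ 2 := by
    intro k w hw
    simp only [hV]; split_ifs with h1
    · exact min_le_right _ _
    · obtain rfl : w = H := by omega
      rw [le_div_iff₀ H2]; push_cast; nlinarith [R0 k]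
  have key : ∀ k ≤ y, M.E (Φ l r h k (V k)) ≤ V 0 h := by
    intro k hk
    induction k with
    | zero => exact (M.Φ_zero l r h0 _).le
    | succ k ih =>
      rw [M.Φ_step (by omega) hl]
      refine le_trans ?_ (ih (by omega))
      rw [← one_mul (M.E (Φ l r h k (V k)))]
      refine M.Φ_mono (by omega) h fun w hw => ?_
      have a1 := M.pp_nonneg l r k
      have a2 := M.rr_nonneg l r k
      have a3 := M.pr_le l r k
      have b : M.T l r k (V (k + 1)) w ≤ 1 := by
        have c3 : (if 1 ≤ w then V (k + 1) (w - 1) else 0) ≤ 1 := by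
          split_ifs; exacts [V1 _ _, zero_le_one]
        have := mul_le_mul_of_nonneg_left (V1 (k + 1) w) a3
        have := mul_le_mul_of_nonneg_left (V1 (k + 1) (w + 1)) a1
        have := mul_le_mul_of_nonneg_left c3 a2
        unfold T; linarith
      rw [one_mul]
      by_cases hw1 : w < H
      · simp only [hV, if_pos hw1]
        refine le_min b ?_
        have c3 : (if 1 ≤ w then V (k + 1) (w - 1) else 0) ≤
            ((((w - 1 : ℤ) : ℝ) + 1) * (2 * H - (w - 1 : ℤ)) + R (k + 1)) / H ^ 2 := by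
          split_ifs with h1
          · exact V2 _ _ (by omega)
          · obtain rfl : w = 0 := by omega
            have := R0 (k + 1)
            norm_num; positivity
        have d1 := mul_le_mul_of_nonneg_left (V2 (k + 1) w hw1.le) a3
        have d2 := mul_le_mul_of_nonneg_left (V2 (k + 1) (w + 1) (by omega)) a1
        have d3 := mul_le_mul_of_nonneg_left c3 a2
        refine le_trans (add_le_add (add_le_add d1 d2) d3) ?_
        have e : R (k + 1) = R k + M.rr l r k := sum_range_succ _ _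
        rw [← mul_div_assoc, ← mul_div_assoc, ← mul_div_assoc, ← add_div, ← add_div, e]
        refine div_le_div_of_nonneg_right ?_ H2.le
        have w0 : (0 : ℝ) ≤ w := by exact_mod_cast hw
        have w1 : (w : ℝ) + 1 ≤ H := by exact_mod_cast hw1
        have hd' := hd k (by omega)
        push_cast
        have : (M.pp l r k - M.rr l r k) * (2 * H - 2 * w - 2) ≤ M.rr l r k := by
          rcases le_total (M.pp l r k - M.rr l r k) 0 with h1 | h1
          · exact (mul_nonpos_of_nonpos_of_nonneg h1 (by linarith)).trans a2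
          · exact (mul_le_mul_of_nonneg_left (by linarith) h1).trans hd'
        nlinarith
      · simpa only [hV, if_neg hw1] using b
  have h' : (0 : ℝ) ≤ h := by exact_mod_cast h0
  refine le_trans ?_ ((key y le_rfl).trans ?_)
  · rw [← one_mul (M.E _)]
    refine M.Φ_mono hy h fun w hw => ?_
    simp only [hV, one_mul]
    split_ifs with h1
    · refine le_min le_rfl ?_
      have w0 : (0 : ℝ) ≤ w := by exact_mod_cast hw
      have w1 : (w : ℝ) ≤ H := by exact_mod_cast h1.le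
      rw [le_div_iff₀ H2]
      have : 0 ≤ ((w : ℝ) + 1) * (2 * H - w) := mul_nonneg (by linarith) (by linarith)
      simp only [hRd]; linarith
    · exact le_rfl
  · by_cases h1 : h ≤ H
    · refine (V2 0 h h1).trans ?_
      rw [div_le_div_iff₀ H2 (by linarith)]
      simp only [hRd, range_zero, sum_empty, add_zero]
      have : 0 ≤ ((h : ℝ) + 1) * h * H := by positivity
      nlinarith
    · refine (V1 0 h).trans ?_
      have : (H : ℝ) ≤ h := by exact_mod_cast (by omega : (H : ℤ) ≤ h)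
      rw [le_div_iff₀ (by linarith)]; linarith

theorem pers_ge {l r y H : ℕ} (hH : 1 ≤ H) (hy : y ≤ l) (hl : l ≤ r)
    (hd : ∀ k < y, M.rr l r k ≤ M.pp l r k) (hR : 6 * y ≤ H ^ 2) :
    1 / (2 * (H : ℝ)) ≤ M.π l r 0 y := by
  have H1 : (1 : ℝ) ≤ H := by exact_mod_cast hH
  have H2 : (0 : ℝ) < (H : ℝ) ^ 2 := by positivity
  have hR' : 6 * (y : ℝ) ≤ (H : ℝ) ^ 2 := by exact_mod_cast hR
  set g : ℤ → ℝ := fun w =>
    if w + 1 < H then ((w : ℝ) + 1) * (3 * H ^ 2 - (w + 1) ^ 2) else 2 * H ^ 3 with hg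
  have g2 : ∀ w : ℤ, w + 1 ≤ H → g w = ((w : ℝ) + 1) * (3 * H ^ 2 - (w + 1) ^ 2) := by
    intro w hw
    simp only [hg]; split_ifs with h1
    · rfl
    · have : (w : ℝ) + 1 = H := by exact_mod_cast (by omega : w + 1 = H)
      rw [this]; ring
  have g0 : 2 * (H : ℝ) ^ 2 ≤ g 0 := by rw [g2 0 (by omega)]; norm_num; nlinarith
  have key : ∀ k ≤ y, (1 - 3 * k / (H : ℝ) ^ 2) * g 0 ≤ M.E (Φ l r 0 k g) := by
    intro k hk
    induction k with
    | zero => simp [M.Φ_zero l r le_rfl]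
    | succ k ih =>
      rw [M.Φ_step (by omega) hl]
      have k1 : (k : ℝ) + 1 ≤ y := by exact_mod_cast hk
      have k0 : (0 : ℝ) ≤ k := k.cast_nonneg
      have l1 : 3 / (H : ℝ) ^ 2 ≤ 1 := by rw [div_le_one H2]; linarith
      have s1 : M.E (Φ l r 0 k fun w => (1 - 3 / (H : ℝ) ^ 2) * g w) ≤
          1 * M.E (Φ l r 0 k (M.T l r k g)) := by
        refine M.Φ_mono (by omega) 0 fun w hw => ?_
        have a1 := hd k (by omega)
        have a2 := M.rr_nonneg l r k
        have a3 := M.pr_le l r k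
        have a4 : M.rr l r k ≤ 1 := by linarith [M.pp_nonneg l r k]
        have w0 : (0 : ℝ) ≤ w := by exact_mod_cast hw
        rw [one_mul]
        by_cases h1 : w + 1 ≤ H
        · have w1 : (w : ℝ) + 1 ≤ H := by exact_mod_cast h1
          have c3 : (if 1 ≤ w then g (w - 1) else 0) = (w : ℝ) * (3 * H ^ 2 - w ^ 2) := by
            split_ifs with h2
            · rw [g2 _ (by omega)]; push_cast; ring
            · obtain rfl : w = 0 := by omega
              simp
          have c4 : 6 * ((w : ℝ) + 1) ≤ 3 / (H : ℝ) ^ 2 * g w := by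
            rw [g2 w h1, div_mul_eq_mul_div, le_div_iff₀ H2]
            have : 0 ≤ ((w : ℝ) + 1) * (H ^ 2 - (w + 1) ^ 2) :=
              mul_nonneg (by linarith) (by nlinarith)
            nlinarith
          have c5 : g w ≤ g (w + 1) ∧ -(6 * ((w : ℝ) + 1)) ≤
              g (w + 1) - g w + ((w : ℝ) * (3 * H ^ 2 - w ^ 2) - g w) := by
            by_cases h2 : w + 1 + 1 ≤ H
            · have w2 : (w : ℝ) + 1 + 1 ≤ H := by exact_mod_cast h2
              rw [g2 w h1, g2 _ h2]; push_cast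
              constructor <;> nlinarith
            · have w2 : (H : ℝ) = w + 1 := by exact_mod_cast (by omega : (H : ℤ) = w + 1)
              simp only [hg, if_neg (show ¬ w + 1 < H by omega),
                if_neg (show ¬ w + 1 + 1 < H by omega), w2]
              constructor <;> nlinarith
          have d1 := mul_le_mul_of_nonneg_right a1 (sub_nonneg.2 c5.1)
          have d2 := mul_le_mul_of_nonneg_left c5.2 a2
          have d3 := mul_le_mul_of_nonneg_right a4 (show 0 ≤ 6 * ((w : ℝ) + 1) by linarith)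
          unfold T; rw [c3]; nlinarith
        · simp only [T, hg, if_neg (show ¬ w + 1 < H by omega), if_pos (show 1 ≤ w by omega),
            if_neg (show ¬ w + 1 + 1 < H by omega), if_neg (show ¬ w - 1 + 1 < H by omega)]
          have : 0 ≤ 3 / (H : ℝ) ^ 2 * (2 * H ^ 3) := by positivity
          nlinarith
      have s2 : M.E (Φ l r 0 k fun w => (1 - 3 / (H : ℝ) ^ 2) * g w) =
          (1 - 3 / (H : ℝ) ^ 2) * M.E (Φ l r 0 k g) := by
        rw [← M.E_cmul]; congr 1; funext x; unfold Φ; split_ifs <;> simp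
      have s3 := mul_le_mul_of_nonneg_left (ih (by omega)) (sub_nonneg.2 l1)
      have s4 : 0 ≤ 3 / (H : ℝ) ^ 2 * (3 * k / (H : ℝ) ^ 2) * g 0 :=
        mul_nonneg (by positivity) (by nlinarith)
      have s5 : 3 * ((k : ℝ) + 1) / H ^ 2 = 3 * k / H ^ 2 + 3 / H ^ 2 := by ring
      push_cast; rw [s5]; nlinarith
  have up : M.E (Φ l r 0 y g) ≤ 2 * (H : ℝ) ^ 3 * M.π l r 0 y := by
    refine M.Φ_mono hy 0 fun w hw => ?_
    have w0 : (0 : ℝ) ≤ w := by exact_mod_cast hw
    simp only [hg]; split_ifs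
    · have : 0 ≤ ((H : ℝ) - (w + 1)) ^ 2 * (2 * H + (w + 1)) := by positivity
      nlinarith
    · simp
  have l2 : 3 * y / (H : ℝ) ^ 2 ≤ 1 / 2 := by rw [div_le_iff₀ H2]; linarith
  have := mul_le_mul (show 1 / 2 ≤ 1 - 3 * y / (H : ℝ) ^ 2 by linarith) g0 (by positivity)
    (by linarith)
  have h3 : (H : ℝ) ^ 2 ≤ H ^ 2 * (M.π l r 0 y * (2 * H)) := by nlinarith [key y le_rfl]
  rw [div_le_iff₀ (by linarith)]
  exact le_of_mul_le_mul_left (by linarith) H2

theorem chern {l r y : ℕ} (hy : y ≤ l) (hl : l ≤ r) {θ : ℝ} (h0 : 0 ≤ θ) (h1 : θ ≤ 1) :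
    M.E (fun x => Real.exp (-θ * W l r y x)) ≤ Real.exp (∑ k ∈ range y,
      (-θ * (M.a (l - 1 - k) - M.a (r + 1 + k)) + θ ^ 2 * (M.a (l - 1 - k) + M.a (r + 1 + k)))) := by
  induction y with
  | zero => simp [W, M.E_const]
  | succ k ih =>
    have := M.step (show k < l by omega) hl
      (F := fun x s => Real.exp (-θ * ((W l r k x + s : ℤ) : ℝ)))
      (fun s x y e => by simp only [W_dep (show k ≤ l by omega) le_rfl e])
    simp only [W_succ]
    rw [this, sum_range_succ, Real.exp_add, mul_comm (Real.exp _)]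
    have e : (fun x => (1 - M.pp l r k - M.rr l r k) * Real.exp (-θ * ((W l r k x + 0 : ℤ) : ℝ)) +
        M.pp l r k * Real.exp (-θ * ((W l r k x + 1 : ℤ) : ℝ)) +
        M.rr l r k * Real.exp (-θ * ((W l r k x + -1 : ℤ) : ℝ))) = fun x =>
        (1 + M.pp l r k * (Real.exp (-θ) - 1) + M.rr l r k * (Real.exp θ - 1)) *
          Real.exp (-θ * W l r k x) := by
      funext x
      push_cast
      simp only [mul_add, Real.exp_add, mul_zero, Real.exp_zero, mul_one, mul_neg, neg_neg]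
      ring
    rw [e, M.E_cmul]
    refine mul_le_mul ?_ (ih (by omega)) (M.E_nonneg fun x => (Real.exp_pos _).le)
      (Real.exp_pos _).le
    refine le_trans ?_ (Real.add_one_le_exp _)
    have b1 := (abs_le.1 (Real.abs_exp_sub_one_sub_id_le (x := θ) (by rwa [abs_of_nonneg h0]))).2
    have b2 := (abs_le.1 (Real.abs_exp_sub_one_sub_id_le (x := -θ)
      (by rwa [abs_neg, abs_of_nonneg h0]))).2
    have c1 := mul_le_mul_of_nonneg_left b1 (M.rr_nonneg l r k)
    have c2 := mul_le_mul_of_nonneg_left b2 (M.pp_nonneg l r k)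
    have c3 := mul_nonneg (sq_nonneg θ)
      (mul_nonneg (M.a_nonneg (l - 1 - k)) (M.a_nonneg (r + 1 + k)))
    unfold pp rr at *
    nlinarith

end Md

end Pool.Agent.P.MP_0a88e3_nt
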